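import Pool.Agent.Confl.S.Split
import Pool.Agent.Confl.Q.MainQ

/-!
# Splits and mild graphs
-/

set_option autoImplicit false

open Filter Topology Set Turing Computability

namespace Pool.Agent.Confl

variable {V W : Type}

/-- Every induced subgraph without a split is mild. -/
def PrimesMild (G : SimpleGraph V) : Prop :=
  ∀ S : Set V, (¬ ∃ A, IsSplit G S A) → Mild (G.induce S)

theorem Mild.primes {G : SimpleGraph V} (h : Mild G) : PrimesMild G :=
  fun S _ => h.induce S

theorem mild_of_ncard [Finite V] {G : SimpleGraph V} {S : Set V} (hS : S.ncard ≤ 4) :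
    Mild (G.induce S) := by
  classical
  have hfin := Set.toFinite S
  have ne : ∀ {p q : S}, p ≠ q → p.1 ≠ q.1 := fun h e => h (Subtype.ext e)
  refine mild_of_tight ?_ ?_
  · intro a b c d v hK hva hvb
    by_contra hcon
    rw [not_or] at hcon
    obtain ⟨k1, k2, k3, k4, k5, k6⟩ := hK
    have hvd : v ≠ d := by
      rintro rfl
      exact hcon.2 k6.symm
    have hsub : ({a.1, b.1, c.1, d.1, v.1} : Finset V) ⊆ hfin.toFinset := by
      intro y hy
      simp only [Finset.mem_insert, Finset.mem_singleton] at hy
      rw [Set.Finite.mem_toFinset]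
      rcases hy with rfl | rfl | rfl | rfl | rfl
      · exact a.2
      · exact b.2
      · exact c.2
      · exact d.2
      · exact v.2
    have hcard := Finset.card_le_card hsub
    rw [← Set.ncard_eq_toFinset_card S hfin] at hcard
    rw [Finset.card_insert_of_notMem, Finset.card_insert_of_notMem, Finset.card_insert_of_notMem,
      Finset.card_insert_of_notMem, Finset.card_singleton] at hcard
    · omega
    · simpa using ne hvd.symm
    · simpa using ⟨ne k6.ne, ne (fun e => hcon.1 e.symm)⟩
    · simpa using ⟨ne k4.ne, ne k5.ne, ne hvb.ne.symm⟩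
    · simpa using ⟨ne k1.ne, ne k2.ne, ne k3.ne, ne hva.ne.symm⟩
  · intro p q a b c d hpq npq hac had hbd pa pb pc pd qa qb qc qd ab bc cd
    exfalso
    have hsub : ({p.1, a.1, b.1, c.1, d.1} : Finset V) ⊆ hfin.toFinset := by
      intro y hy
      simp only [Finset.mem_insert, Finset.mem_singleton] at hy
      rw [Set.Finite.mem_toFinset]
      rcases hy with rfl | rfl | rfl | rfl | rfl
      · exact p.2
      · exact a.2
      · exact b.2
      · exact c.2
      · exact d.2
    have hcard := Finset.card_le_card hsub
    rw [← Set.ncard_eq_toFinset_card S hfin] at hcard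
    rw [Finset.card_insert_of_notMem, Finset.card_insert_of_notMem, Finset.card_insert_of_notMem,
      Finset.card_insert_of_notMem, Finset.card_singleton] at hcard
    · omega
    · simpa using ne cd.ne
    · simpa using ⟨ne bc.ne, ne hbd⟩
    · simpa using ⟨ne ab.ne, ne hac, ne had⟩
    · simpa using ⟨ne pa.ne, ne pb.ne, ne pc.ne, ne pd.ne⟩

/-- If every induced subgraph with at least five vertices has a split, then the class condition
holds. -/
theorem primesMild_of_splits [Finite V] {G : SimpleGraph V}
    (h : ∀ S : Set V, 5 ≤ S.ncard → ∃ A, IsSplit G S A) : PrimesMild G := by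
  intro S hS
  refine mild_of_ncard ?_
  by_contra hcon
  exact hS (h S (by omega))

theorem outerconfluent_of_primesMild [Finite V] (G : SimpleGraph V) (hG : PrimesMild G)
    (x : V → ℝ) (hx : Function.Injective x) (hlc : LC G x) : Outerconfluent G := by
  rw [outerconfluent_iff_primes]
  intro S hS
  obtain ⟨D, hD, -⟩ := outerconfluentAt_of_lcQ (G.induce S) (fun v => x v.1)
    (hx.comp Subtype.val_injective) (hG S hS)
    (fun a b c d h1 h2 h3 h4 h5 => hlc a.1 b.1 c.1 d.1 h1 h2 h3 h4 h5)
  exact ⟨D, hD⟩

end Pool.Agent.Confl
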