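import Pool.Agent.Confl.S.Defs
import Pool.Agent.Confl.Surgery

/-!
# Smooth paths of the glued skeleton (helper76)
-/

set_option autoImplicit false

namespace Pool.Agent.Confl

namespace GlueAux

variable {V W : Type}

section Nodes

variable (S : Skel V) (T : Skel W) (m : V) (n : W)

theorem nodeL_inl {x : V ⊕ S.J} {a : {v : V // v ≠ m}} :
    nodeL S T m n x = Sum.inl (Sum.inl a) ↔ x = Sum.inl a.1 := by
  rcases x with v | j
  · dsimp only [nodeL]
    split_ifs with h
    · constructor
      · intro h1
        cases h1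
      · intro h1
        exact absurd ((Sum.inl.inj h1).symm.trans h) a.2
    · constructor
      · intro h1
        rw [← Sum.inl.inj (Sum.inl.inj h1)]
      · intro h1
        obtain ⟨w, hw⟩ := a
        have h2 : v = w := Sum.inl.inj h1
        subst h2
        rfl
  · constructor
    · intro h1
      cases h1
    · intro h1
      cases h1

theorem nodeL_mark {x : V ⊕ S.J} {b : Bool} :
    nodeL S T m n x = Sum.inr (Sum.inr b) ↔ x = Sum.inl m ∧ b = false := by
  rcases x with v | j
  · dsimp only [nodeL]
    split_ifs with h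
    · constructor
      · intro h1
        exact ⟨by rw [h], (Sum.inr.inj (Sum.inr.inj h1)).symm⟩
      · rintro ⟨-, h2⟩
        rw [h2]
    · constructor
      · intro h1
        cases h1
      · rintro ⟨h1, -⟩
        exact absurd (Sum.inl.inj h1) h
  · constructor
    · intro h1
      cases h1
    · rintro ⟨h1, -⟩
      cases h1

theorem nodeL_junction {x : V ⊕ S.J} {j : S.J ⊕ T.J} :
    nodeL S T m n x = Sum.inr (Sum.inl j) ↔ ∃ i, j = Sum.inl i ∧ x = Sum.inr i := by
  rcases x with v | i
  · dsimp only [nodeL]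
    split_ifs with h
    · constructor
      · intro h1
        cases h1
      · rintro ⟨i, -, h2⟩
        cases h2
    · constructor
      · intro h1
        cases h1
      · rintro ⟨i, -, h2⟩
        cases h2
  · constructor
    · intro h1
      exact ⟨i, (Sum.inl.inj (Sum.inr.inj h1)).symm, rfl⟩
    · rintro ⟨i', h1, h2⟩
      rw [h1, ← Sum.inr.inj h2]
      rfl

theorem nodeL_ne_inr {x : V ⊕ S.J} {a : {w : W // w ≠ n}} :
    nodeL S T m n x ≠ Sum.inl (Sum.inr a) := by
  intro h
  rcases x with v | j
  · dsimp only [nodeL] at h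
    split_ifs at h
    cases Sum.inl.inj h
  · cases h

theorem nodeR_inr {x : W ⊕ T.J} {a : {w : W // w ≠ n}} :
    nodeR S T m n x = Sum.inl (Sum.inr a) ↔ x = Sum.inl a.1 := by
  rcases x with v | j
  · dsimp only [nodeR]
    split_ifs with h
    · constructor
      · intro h1
        cases h1
      · intro h1
        exact absurd ((Sum.inl.inj h1).symm.trans h) a.2
    · constructor
      · intro h1
        rw [← Sum.inr.inj (Sum.inl.inj h1)]
      · intro h1
        obtain ⟨w, hw⟩ := a
        have h2 : v = w := Sum.inl.inj h1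
        subst h2
        rfl
  · constructor
    · intro h1
      cases h1
    · intro h1
      cases h1

theorem nodeR_mark {x : W ⊕ T.J} {b : Bool} :
    nodeR S T m n x = Sum.inr (Sum.inr b) ↔ x = Sum.inl n ∧ b = true := by
  rcases x with v | j
  · dsimp only [nodeR]
    split_ifs with h
    · constructor
      · intro h1
        exact ⟨by rw [h], (Sum.inr.inj (Sum.inr.inj h1)).symm⟩
      · rintro ⟨-, h2⟩
        rw [h2]
    · constructor
      · intro h1
        cases h1
      · rintro ⟨h1, -⟩
        exact absurd (Sum.inl.inj h1) h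
  · constructor
    · intro h1
      cases h1
    · rintro ⟨h1, -⟩
      cases h1

theorem nodeR_junction {x : W ⊕ T.J} {j : S.J ⊕ T.J} :
    nodeR S T m n x = Sum.inr (Sum.inl j) ↔ ∃ i, j = Sum.inr i ∧ x = Sum.inr i := by
  rcases x with v | i
  · dsimp only [nodeR]
    split_ifs with h
    · constructor
      · intro h1
        cases h1
      · rintro ⟨i, -, h2⟩
        cases h2
    · constructor
      · intro h1
        cases h1
      · rintro ⟨i, -, h2⟩
        cases h2
  · constructor
    · intro h1
      exact ⟨i, (Sum.inl.inj (Sum.inr.inj h1)).symm, rfl⟩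
    · rintro ⟨i', h1, h2⟩
      rw [h1, ← Sum.inr.inj h2]
      rfl

theorem nodeR_ne_inl {x : W ⊕ T.J} {a : {v : V // v ≠ m}} :
    nodeR S T m n x ≠ Sum.inl (Sum.inl a) := by
  intro h
  rcases x with v | j
  · dsimp only [nodeR] at h
    split_ifs at h
    cases Sum.inl.inj h
  · cases h

theorem nodeL_injective : Function.Injective (nodeL S T m n) := by
  intro x y h
  generalize hz : nodeL S T m n y = z at h
  rcases z with (a | a) | (j | b)
  · rw [(nodeL_inl S T m n).1 h, (nodeL_inl S T m n).1 hz]
  · exact absurd h (nodeL_ne_inr S T m n)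
  · obtain ⟨i, h1, h2⟩ := (nodeL_junction S T m n).1 h
    obtain ⟨i', h3, h4⟩ := (nodeL_junction S T m n).1 hz
    rw [h2, h4, Sum.inl.inj (h1.symm.trans h3)]
  · rw [((nodeL_mark S T m n).1 h).1, ((nodeL_mark S T m n).1 hz).1]

theorem nodeR_injective : Function.Injective (nodeR S T m n) := by
  intro x y h
  generalize hz : nodeR S T m n y = z at h
  rcases z with (a | a) | (j | b)
  · exact absurd h (nodeR_ne_inl S T m n)
  · rw [(nodeR_inr S T m n).1 h, (nodeR_inr S T m n).1 hz]
  · obtain ⟨i, h1, h2⟩ := (nodeR_junction S T m n).1 h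
    obtain ⟨i', h3, h4⟩ := (nodeR_junction S T m n).1 hz
    rw [h2, h4, Sum.inr.inj (h1.symm.trans h3)]
  · rw [((nodeR_mark S T m n).1 h).1, ((nodeR_mark S T m n).1 hz).1]

theorem nodeL_ne_nodeR (x : V ⊕ S.J) (y : W ⊕ T.J) : nodeL S T m n x ≠ nodeR S T m n y := by
  intro h
  generalize hz : nodeR S T m n y = z at h
  rcases z with (a | a) | (j | b)
  · exact absurd hz (nodeR_ne_inl S T m n)
  · exact absurd h (nodeL_ne_inr S T m n)
  · obtain ⟨i, h1, h2⟩ := (nodeL_junction S T m n).1 h
    obtain ⟨i', h3, h4⟩ := (nodeR_junction S T m n).1 hz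
    rw [h1] at h3
    cases h3
  · have h1 := ((nodeL_mark S T m n).1 h).2
    have h2 := ((nodeR_mark S T m n).1 hz).2
    rw [h1] at h2
    cases h2

end Nodes

section Glue

variable (S : Skel V) (T : Skel W) (m : V) (n : W)
  (pt : ({v : V // v ≠ m} ⊕ {w : W // w ≠ n}) ⊕ ((S.J ⊕ T.J) ⊕ Bool) → ℂ)

/-- The dart of the glued skeleton of a dart of the left skeleton. -/
def eL (d : S.Dart) : (glue S T m n pt).Dart := (Sum.inl (Sum.inl d.1), d.2)

/-- The dart of the glued skeleton of a dart of the right skeleton. -/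
def eR (d : T.Dart) : (glue S T m n pt).Dart := (Sum.inl (Sum.inr d.1), d.2)

/-- The two darts of the new arc. -/
def lk (b : Bool) : (glue S T m n pt).Dart := (Sum.inr (), b)

theorem dart_cases (x : (glue S T m n pt).Dart) :
    (∃ d, x = eL S T m n pt d) ∨ (∃ d, x = eR S T m n pt d) ∨ ∃ b, x = lk S T m n pt b := by
  obtain ⟨(a | a) | a, b⟩ := x
  · exact Or.inl ⟨(a, b), rfl⟩
  · exact Or.inr (Or.inl ⟨(a, b), rfl⟩)
  · exact Or.inr (Or.inr ⟨b, rfl⟩)

theorem tail_eL (d : S.Dart) :
    (glue S T m n pt).tail (eL S T m n pt d) = nodeL S T m n (S.tail d) := rfl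

theorem head_eL (d : S.Dart) :
    (glue S T m n pt).head (eL S T m n pt d) = nodeL S T m n (S.head d) := rfl

theorem tail_eR (d : T.Dart) :
    (glue S T m n pt).tail (eR S T m n pt d) = nodeR S T m n (T.tail d) := rfl

theorem head_eR (d : T.Dart) :
    (glue S T m n pt).head (eR S T m n pt d) = nodeR S T m n (T.head d) := rfl

theorem tail_lk (b : Bool) :
    (glue S T m n pt).tail (lk S T m n pt b) = Sum.inr (Sum.inr b) := rfl

theorem head_lk (b : Bool) :
    (glue S T m n pt).head (lk S T m n pt b) = Sum.inr (Sum.inr (!b)) := rfl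

theorem not_turn_eL_eR (d : S.Dart) (d' : T.Dart) :
    ¬ (glue S T m n pt).Turn (eL S T m n pt d) (eR S T m n pt d') := by
  rintro ⟨j, h1, h2, -⟩
  rw [head_eL] at h1
  rw [tail_eR] at h2
  exact nodeL_ne_nodeR S T m n _ _ (h1.trans h2.symm)

theorem not_turn_eR_eL (d : S.Dart) (d' : T.Dart) :
    ¬ (glue S T m n pt).Turn (eR S T m n pt d') (eL S T m n pt d) := by
  rintro ⟨j, h1, h2, -⟩
  rw [head_eR] at h1
  rw [tail_eL] at h2
  exact nodeL_ne_nodeR S T m n _ _ (h2.trans h1.symm)

theorem not_turn_lk_lk (b c : Bool) :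
    ¬ (glue S T m n pt).Turn (lk S T m n pt b) (lk S T m n pt c) := by
  rintro ⟨j, -, -, h3⟩
  exact h3 rfl

theorem turn_eL_eL (d d' : S.Dart) :
    (glue S T m n pt).Turn (eL S T m n pt d) (eL S T m n pt d') ↔ S.Turn d d' := by
  constructor
  · rintro ⟨j, h1, h2, h3⟩
    rw [head_eL] at h1
    rw [tail_eL] at h2
    rcases j with j | b
    · obtain ⟨i, h4, h5⟩ := (nodeL_junction S T m n).1 h1
      obtain ⟨i', h6, h7⟩ := (nodeL_junction S T m n).1 h2
      have h8 : i = i' := Sum.inl.inj (h4.symm.trans h6)
      subst h8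
      refine ⟨i, h5, h7, ?_⟩
      have e1 : (glue S T m n pt).dir (eL S T m n pt d).1 (!(eL S T m n pt d).2) =
          S.dir d.1 (!d.2) := by
        refine if_neg ?_
        intro h9
        exact absurd (h5.symm.trans h9) (by simp)
      have e2 : (glue S T m n pt).dir (eL S T m n pt d').1 (eL S T m n pt d').2 =
          S.dir d'.1 d'.2 := by
        refine if_neg ?_
        intro h9
        exact absurd (h7.symm.trans h9) (by simp)
      rw [e1, e2] at h3
      exact h3
    · exfalso
      have h4 := ((nodeL_mark S T m n).1 h1).1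
      have h5 := ((nodeL_mark S T m n).1 h2).1
      have e1 : (glue S T m n pt).dir (eL S T m n pt d).1 (!(eL S T m n pt d).2) = false :=
        if_pos h4
      have e2 : (glue S T m n pt).dir (eL S T m n pt d').1 (eL S T m n pt d').2 = false :=
        if_pos h5
      rw [e1, e2] at h3
      exact h3 rfl
  · rintro ⟨i, h5, h7, h3⟩
    refine ⟨Sum.inl (Sum.inl i), ?_, ?_, ?_⟩
    · rw [head_eL]
      exact (nodeL_junction S T m n).2 ⟨i, rfl, h5⟩
    · rw [tail_eL]
      exact (nodeL_junction S T m n).2 ⟨i, rfl, h7⟩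
    · have e1 : (glue S T m n pt).dir (eL S T m n pt d).1 (!(eL S T m n pt d).2) =
          S.dir d.1 (!d.2) := by
        refine if_neg ?_
        intro h9
        exact absurd (h5.symm.trans h9) (by simp)
      have e2 : (glue S T m n pt).dir (eL S T m n pt d').1 (eL S T m n pt d').2 =
          S.dir d'.1 d'.2 := by
        refine if_neg ?_
        intro h9
        exact absurd (h7.symm.trans h9) (by simp)
      rw [e1, e2]
      exact h3

theorem turn_eL_lk (d : S.Dart) (b : Bool) :
    (glue S T m n pt).Turn (eL S T m n pt d) (lk S T m n pt b) ↔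
      b = false ∧ S.head d = Sum.inl m := by
  constructor
  · rintro ⟨j, h1, h2, -⟩
    rw [tail_lk] at h2
    rw [head_eL, ← h2] at h1
    have h3 := (nodeL_mark S T m n).1 h1
    exact ⟨h3.2, h3.1⟩
  · rintro ⟨rfl, h⟩
    refine ⟨Sum.inr false, ?_, rfl, ?_⟩
    · rw [head_eL]
      exact (nodeL_mark S T m n).2 ⟨h, rfl⟩
    · have e1 : (glue S T m n pt).dir (eL S T m n pt d).1 (!(eL S T m n pt d).2) = false :=
        if_pos h
      rw [e1]
      exact Bool.false_ne_true

theorem turn_lk_eL (d : S.Dart) (b : Bool) :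
    (glue S T m n pt).Turn (lk S T m n pt b) (eL S T m n pt d) ↔
      b = true ∧ S.tail d = Sum.inl m := by
  constructor
  · rintro ⟨j, h1, h2, -⟩
    rw [head_lk] at h1
    rw [tail_eL, ← h1] at h2
    have h3 := (nodeL_mark S T m n).1 h2
    refine ⟨?_, h3.1⟩
    have h4 := h3.2
    cases b
    · cases h4
    · rfl
  · rintro ⟨rfl, h⟩
    refine ⟨Sum.inr false, rfl, ?_, ?_⟩
    · rw [tail_eL]
      exact (nodeL_mark S T m n).2 ⟨h, rfl⟩
    · have e1 : (glue S T m n pt).dir (eL S T m n pt d).1 (eL S T m n pt d).2 = false :=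
        if_pos h
      rw [e1]
      exact Bool.false_ne_true.symm

theorem turn_eR_eR (d d' : T.Dart) :
    (glue S T m n pt).Turn (eR S T m n pt d) (eR S T m n pt d') ↔ T.Turn d d' := by
  constructor
  · rintro ⟨j, h1, h2, h3⟩
    rw [head_eR] at h1
    rw [tail_eR] at h2
    rcases j with j | b
    · obtain ⟨i, h4, h5⟩ := (nodeR_junction S T m n).1 h1
      obtain ⟨i', h6, h7⟩ := (nodeR_junction S T m n).1 h2
      have h8 : i = i' := Sum.inr.inj (h4.symm.trans h6)
      subst h8
      refine ⟨i, h5, h7, ?_⟩
      have e1 : (glue S T m n pt).dir (eR S T m n pt d).1 (!(eR S T m n pt d).2) =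
          T.dir d.1 (!d.2) := by
        refine if_neg ?_
        intro h9
        exact absurd (h5.symm.trans h9) (by simp)
      have e2 : (glue S T m n pt).dir (eR S T m n pt d').1 (eR S T m n pt d').2 =
          T.dir d'.1 d'.2 := by
        refine if_neg ?_
        intro h9
        exact absurd (h7.symm.trans h9) (by simp)
      rw [e1, e2] at h3
      exact h3
    · exfalso
      have h4 := ((nodeR_mark S T m n).1 h1).1
      have h5 := ((nodeR_mark S T m n).1 h2).1
      have e1 : (glue S T m n pt).dir (eR S T m n pt d).1 (!(eR S T m n pt d).2) = false :=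
        if_pos h4
      have e2 : (glue S T m n pt).dir (eR S T m n pt d').1 (eR S T m n pt d').2 = false :=
        if_pos h5
      rw [e1, e2] at h3
      exact h3 rfl
  · rintro ⟨i, h5, h7, h3⟩
    refine ⟨Sum.inl (Sum.inr i), ?_, ?_, ?_⟩
    · rw [head_eR]
      exact (nodeR_junction S T m n).2 ⟨i, rfl, h5⟩
    · rw [tail_eR]
      exact (nodeR_junction S T m n).2 ⟨i, rfl, h7⟩
    · have e1 : (glue S T m n pt).dir (eR S T m n pt d).1 (!(eR S T m n pt d).2) =
          T.dir d.1 (!d.2) := by
        refine if_neg ?_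
        intro h9
        exact absurd (h5.symm.trans h9) (by simp)
      have e2 : (glue S T m n pt).dir (eR S T m n pt d').1 (eR S T m n pt d').2 =
          T.dir d'.1 d'.2 := by
        refine if_neg ?_
        intro h9
        exact absurd (h7.symm.trans h9) (by simp)
      rw [e1, e2]
      exact h3

theorem turn_eR_lk (d : T.Dart) (b : Bool) :
    (glue S T m n pt).Turn (eR S T m n pt d) (lk S T m n pt b) ↔
      b = true ∧ T.head d = Sum.inl n := by
  constructor
  · rintro ⟨j, h1, h2, -⟩
    rw [tail_lk] at h2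
    rw [head_eR, ← h2] at h1
    have h3 := (nodeR_mark S T m n).1 h1
    exact ⟨h3.2, h3.1⟩
  · rintro ⟨rfl, h⟩
    refine ⟨Sum.inr true, ?_, rfl, ?_⟩
    · rw [head_eR]
      exact (nodeR_mark S T m n).2 ⟨h, rfl⟩
    · have e1 : (glue S T m n pt).dir (eR S T m n pt d).1 (!(eR S T m n pt d).2) = false :=
        if_pos h
      rw [e1]
      exact Bool.false_ne_true

theorem turn_lk_eR (d : T.Dart) (b : Bool) :
    (glue S T m n pt).Turn (lk S T m n pt b) (eR S T m n pt d) ↔
      b = false ∧ T.tail d = Sum.inl n := by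
  constructor
  · rintro ⟨j, h1, h2, -⟩
    rw [head_lk] at h1
    rw [tail_eR, ← h1] at h2
    have h3 := (nodeR_mark S T m n).1 h2
    refine ⟨?_, h3.1⟩
    have h4 := h3.2
    cases b
    · rfl
    · cases h4
  · rintro ⟨rfl, h⟩
    refine ⟨Sum.inr true, rfl, ?_, ?_⟩
    · rw [tail_eR]
      exact (nodeR_mark S T m n).2 ⟨h, rfl⟩
    · have e1 : (glue S T m n pt).dir (eR S T m n pt d).1 (eR S T m n pt d).2 = false :=
        if_pos h
      rw [e1]
      exact Bool.false_ne_true.symm

theorem start_eL (q : List S.Dart) :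
    ((q.map (eL S T m n pt)).head?).map (glue S T m n pt).tail =
      (q.head?.map S.tail).map (nodeL S T m n) := by
  cases q <;> rfl

theorem finish_eL (q : List S.Dart) :
    ((q.map (eL S T m n pt)).getLast?).map (glue S T m n pt).head =
      (q.getLast?.map S.head).map (nodeL S T m n) := by
  rw [List.getLast?_map, Option.map_map, Option.map_map]
  rfl

theorem heads_eL (q : List S.Dart) :
    (q.map (eL S T m n pt)).map (glue S T m n pt).head =
      (q.map S.head).map (nodeL S T m n) := by
  rw [List.map_map, List.map_map]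
  rfl

theorem chain_eL (q : List S.Dart) :
    (q.map (eL S T m n pt)).IsChain (glue S T m n pt).Turn ↔ q.IsChain S.Turn := by
  rw [List.isChain_map]
  constructor
  · intro h
    exact h.imp fun a b hab => (turn_eL_eL S T m n pt a b).1 hab
  · intro h
    exact h.imp fun a b hab => (turn_eL_eL S T m n pt a b).2 hab

/-- A smooth sequence starting on this side stays there or reaches the new arc. -/
theorem splitL (p : List (glue S T m n pt).Dart) (hp : p.IsChain (glue S T m n pt).Turn)
    (h : ∀ x, p.head? = some x → ∃ d, x = eL S T m n pt d) :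
    (∃ q : List S.Dart, p = q.map (eL S T m n pt)) ∨
    ∃ (q : List S.Dart) (r : List (glue S T m n pt).Dart),
      p = q.map (eL S T m n pt) ++ lk S T m n pt false :: r ∧
      q.getLast?.map S.head = some (Sum.inl m) := by
  induction p with
  | nil => exact Or.inl ⟨[], rfl⟩
  | cons x l ih =>
    obtain ⟨d, rfl⟩ := h x rfl
    cases l with
    | nil => exact Or.inl ⟨[d], rfl⟩
    | cons y l =>
      rw [List.isChain_cons_cons] at hp
      obtain ⟨h1, h2⟩ := hp
      rcases dart_cases S T m n pt y with ⟨d', rfl⟩ | ⟨d', rfl⟩ | ⟨b, rfl⟩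
      · rcases ih h2 (fun x hx => ⟨d', by
          rw [List.head?_cons, Option.some.injEq] at hx
          exact hx.symm⟩) with ⟨q, hq⟩ | ⟨q, r, hq, hq2⟩
        · exact Or.inl ⟨d :: q, by rw [hq]; rfl⟩
        · refine Or.inr ⟨d :: q, r, by rw [hq]; rfl, ?_⟩
          cases q with
          | nil => simp at hq2
          | cons e q => rw [List.getLast?_cons_cons]; exact hq2
      · exact absurd h1 (not_turn_eL_eR S T m n pt _ _)
      · obtain ⟨rfl, h4⟩ := (turn_eL_lk S T m n pt _ _).1 h1
        exact Or.inr ⟨[d], l, rfl, by simp [h4]⟩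

theorem start_eR (q : List T.Dart) :
    ((q.map (eR S T m n pt)).head?).map (glue S T m n pt).tail =
      (q.head?.map T.tail).map (nodeR S T m n) := by
  cases q <;> rfl

theorem finish_eR (q : List T.Dart) :
    ((q.map (eR S T m n pt)).getLast?).map (glue S T m n pt).head =
      (q.getLast?.map T.head).map (nodeR S T m n) := by
  rw [List.getLast?_map, Option.map_map, Option.map_map]
  rfl

theorem heads_eR (q : List T.Dart) :
    (q.map (eR S T m n pt)).map (glue S T m n pt).head =
      (q.map T.head).map (nodeR S T m n) := by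
  rw [List.map_map, List.map_map]
  rfl

theorem chain_eR (q : List T.Dart) :
    (q.map (eR S T m n pt)).IsChain (glue S T m n pt).Turn ↔ q.IsChain T.Turn := by
  rw [List.isChain_map]
  constructor
  · intro h
    exact h.imp fun a b hab => (turn_eR_eR S T m n pt a b).1 hab
  · intro h
    exact h.imp fun a b hab => (turn_eR_eR S T m n pt a b).2 hab

/-- A smooth sequence starting on this side stays there or reaches the new arc. -/
theorem splitR (p : List (glue S T m n pt).Dart) (hp : p.IsChain (glue S T m n pt).Turn)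
    (h : ∀ x, p.head? = some x → ∃ d, x = eR S T m n pt d) :
    (∃ q : List T.Dart, p = q.map (eR S T m n pt)) ∨
    ∃ (q : List T.Dart) (r : List (glue S T m n pt).Dart),
      p = q.map (eR S T m n pt) ++ lk S T m n pt true :: r ∧
      q.getLast?.map T.head = some (Sum.inl n) := by
  induction p with
  | nil => exact Or.inl ⟨[], rfl⟩
  | cons x l ih =>
    obtain ⟨d, rfl⟩ := h x rfl
    cases l with
    | nil => exact Or.inl ⟨[d], rfl⟩
    | cons y l =>
      rw [List.isChain_cons_cons] at hp
      obtain ⟨h1, h2⟩ := hp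
      rcases dart_cases S T m n pt y with ⟨d', rfl⟩ | ⟨d', rfl⟩ | ⟨b, rfl⟩
      · exact absurd h1 (not_turn_eR_eL S T m n pt _ _)
      · rcases ih h2 (fun x hx => ⟨d', by
          rw [List.head?_cons, Option.some.injEq] at hx
          exact hx.symm⟩) with ⟨q, hq⟩ | ⟨q, r, hq, hq2⟩
        · exact Or.inl ⟨d :: q, by rw [hq]; rfl⟩
        · refine Or.inr ⟨d :: q, r, by rw [hq]; rfl, ?_⟩
          cases q with
          | nil => simp at hq2
          | cons e q => rw [List.getLast?_cons_cons]; exact hq2
      · obtain ⟨rfl, h4⟩ := (turn_eR_lk S T m n pt _ _).1 h1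
        exact Or.inr ⟨[d], l, rfl, by simp [h4]⟩

theorem pathL {a b : {v : V // v ≠ m}} {q : List S.Dart} :
    (glue S T m n pt).IsSmoothPath (Sum.inl a) (Sum.inl b) (q.map (eL S T m n pt)) ↔
      S.IsSmoothPath a.1 b.1 q := by
  constructor
  · rintro ⟨h1, h2, h3, h4⟩
    rw [start_eL] at h1
    rw [finish_eL] at h2
    rw [chain_eL] at h3
    rw [heads_eL] at h4
    refine ⟨?_, ?_, h3, (List.nodup_map_iff (nodeL_injective S T m n)).1 h4⟩
    · exact Option.map_injective (nodeL_injective S T m n)
        (h1.trans (congrArg some ((nodeL_inl S T m n).2 rfl).symm))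
    · exact Option.map_injective (nodeL_injective S T m n)
        (h2.trans (congrArg some ((nodeL_inl S T m n).2 rfl).symm))
  · rintro ⟨h1, h2, h3, h4⟩
    refine ⟨?_, ?_, ?_, ?_⟩
    · rw [start_eL, h1]
      exact congrArg some ((nodeL_inl S T m n).2 rfl)
    · rw [finish_eL, h2]
      exact congrArg some ((nodeL_inl S T m n).2 rfl)
    · rw [chain_eL]
      exact h3
    · rw [heads_eL]
      exact (List.nodup_map_iff (nodeL_injective S T m n)).2 h4

/-- A smooth path that starts on this side stays there or uses the new arc exactly once. -/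
theorem crossL {y : {v : V // v ≠ m} ⊕ {w : W // w ≠ n}} {p : List (glue S T m n pt).Dart}
    {a : {v : V // v ≠ m}} (hp : (glue S T m n pt).IsSmoothPath (Sum.inl a) y p) :
    (∃ q : List S.Dart, p = q.map (eL S T m n pt)) ∨
      ∃ (q : List S.Dart) (r : List T.Dart),
        p = q.map (eL S T m n pt) ++ lk S T m n pt false :: r.map (eR S T m n pt) ∧
        q.getLast?.map S.head = some (Sum.inl m) ∧
        r.head?.map T.tail = some (Sum.inl n) := by
  have hfirst : ∀ z, p.head? = some z → ∃ d, z = eL S T m n pt d := by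
    intro z hz
    have h1 := hp.start
    rw [hz, Option.map_some, Option.some.injEq] at h1
    rcases dart_cases S T m n pt z with ⟨d, hd⟩ | ⟨d, hd⟩ | ⟨b, hd⟩
    · exact ⟨d, hd⟩
    · rw [hd, tail_eR] at h1
      exact absurd h1 (nodeR_ne_inl S T m n)
    · rw [hd, tail_lk] at h1
      cases h1
  rcases splitL S T m n pt p hp.turns hfirst with h | ⟨q, r, hpq, hq⟩
  · exact Or.inl h
  · right
    have hch := hp.turns
    rw [hpq, List.isChain_append] at hch
    have hch2 := hch.2.1
    rw [List.isChain_cons] at hch2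
    have hfin := hp.finish
    rw [hpq, List.getLast?_append_cons] at hfin
    cases r with
    | nil =>
      rw [List.getLast?_singleton, Option.map_some, head_lk] at hfin
      cases hfin
    | cons z r =>
      have hz := hch2.1 z rfl
      have hz2 : ∃ d, z = eR S T m n pt d ∧ T.tail d = Sum.inl n := by
        rcases dart_cases S T m n pt z with ⟨d, rfl⟩ | ⟨d, rfl⟩ | ⟨b, rfl⟩
        · have := ((turn_lk_eL S T m n pt _ _).1 hz).1
          cases this
        · exact ⟨d, rfl, ((turn_lk_eR S T m n pt _ _).1 hz).2⟩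
        · exact absurd hz (not_turn_lk_lk S T m n pt _ _)
      obtain ⟨d, hd, hdn⟩ := hz2
      have hr : ∀ x, (z :: r).head? = some x → ∃ d, x = eR S T m n pt d := by
        intro x hx
        rw [List.head?_cons, Option.some.injEq] at hx
        exact ⟨d, hx.symm.trans hd⟩
      rcases splitR S T m n pt (z :: r) hch2.2 hr with ⟨r', hr'⟩ | ⟨r', s, hr', -⟩
      · refine ⟨q, r', by rw [hpq, hr'], hq, ?_⟩
        have h3 := start_eR S T m n pt r'
        rw [← hr', List.head?_cons, Option.map_some, hd, tail_eR, hdn] at h3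
        have h4 : Option.map (nodeR S T m n) (some (Sum.inl n)) =
          Option.map (nodeR S T m n) (r'.head?.map T.tail) := h3
        exact (Option.map_injective (nodeR_injective S T m n) h4).symm
      · exfalso
        have hnd := hp.simple
        rw [hpq, hr', List.map_append] at hnd
        have hdj := List.disjoint_of_nodup_append hnd
        obtain ⟨d2, hd2, hd3⟩ := Option.map_eq_some_iff.1 hq
        have m1 : (Sum.inr (Sum.inr false) : ({v : V // v ≠ m} ⊕ {w : W // w ≠ n}) ⊕
            ((S.J ⊕ T.J) ⊕ Bool)) ∈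
            (q.map (eL S T m n pt)).map (glue S T m n pt).head := by
          rw [heads_eL]
          refine List.mem_map.2 ⟨Sum.inl m, ?_, (nodeL_mark S T m n).2 ⟨rfl, rfl⟩⟩
          exact List.mem_map.2 ⟨d2, List.mem_of_getLast? hd2, hd3⟩
        refine hdj m1 ?_
        refine List.mem_map.2 ⟨lk S T m n pt true, ?_, rfl⟩
        refine List.mem_cons_of_mem _ (List.mem_append_right _ ?_)
        exact List.mem_cons_self


theorem pathR {a b : {v : W // v ≠ n}} {q : List T.Dart} :
    (glue S T m n pt).IsSmoothPath (Sum.inr a) (Sum.inr b) (q.map (eR S T m n pt)) ↔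
      T.IsSmoothPath a.1 b.1 q := by
  constructor
  · rintro ⟨h1, h2, h3, h4⟩
    rw [start_eR] at h1
    rw [finish_eR] at h2
    rw [chain_eR] at h3
    rw [heads_eR] at h4
    refine ⟨?_, ?_, h3, (List.nodup_map_iff (nodeR_injective S T m n)).1 h4⟩
    · exact Option.map_injective (nodeR_injective S T m n)
        (h1.trans (congrArg some ((nodeR_inr S T m n).2 rfl).symm))
    · exact Option.map_injective (nodeR_injective S T m n)
        (h2.trans (congrArg some ((nodeR_inr S T m n).2 rfl).symm))
  · rintro ⟨h1, h2, h3, h4⟩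
    refine ⟨?_, ?_, ?_, ?_⟩
    · rw [start_eR, h1]
      exact congrArg some ((nodeR_inr S T m n).2 rfl)
    · rw [finish_eR, h2]
      exact congrArg some ((nodeR_inr S T m n).2 rfl)
    · rw [chain_eR]
      exact h3
    · rw [heads_eR]
      exact (List.nodup_map_iff (nodeR_injective S T m n)).2 h4

/-- A smooth path that starts on this side stays there or uses the new arc exactly once. -/
theorem crossR {y : {v : V // v ≠ m} ⊕ {w : W // w ≠ n}} {p : List (glue S T m n pt).Dart}
    {a : {v : W // v ≠ n}} (hp : (glue S T m n pt).IsSmoothPath (Sum.inr a) y p) :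
    (∃ q : List T.Dart, p = q.map (eR S T m n pt)) ∨
      ∃ (q : List T.Dart) (r : List S.Dart),
        p = q.map (eR S T m n pt) ++ lk S T m n pt true :: r.map (eL S T m n pt) ∧
        q.getLast?.map T.head = some (Sum.inl n) ∧
        r.head?.map S.tail = some (Sum.inl m) := by
  have hfirst : ∀ z, p.head? = some z → ∃ d, z = eR S T m n pt d := by
    intro z hz
    have h1 := hp.start
    rw [hz, Option.map_some, Option.some.injEq] at h1
    rcases dart_cases S T m n pt z with ⟨d, hd⟩ | ⟨d, hd⟩ | ⟨b, hd⟩
    · rw [hd, tail_eL] at h1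
      exact absurd h1 (nodeL_ne_inr S T m n)
    · exact ⟨d, hd⟩
    · rw [hd, tail_lk] at h1
      cases h1
  rcases splitR S T m n pt p hp.turns hfirst with h | ⟨q, r, hpq, hq⟩
  · exact Or.inl h
  · right
    have hch := hp.turns
    rw [hpq, List.isChain_append] at hch
    have hch2 := hch.2.1
    rw [List.isChain_cons] at hch2
    have hfin := hp.finish
    rw [hpq, List.getLast?_append_cons] at hfin
    cases r with
    | nil =>
      rw [List.getLast?_singleton, Option.map_some, head_lk] at hfin
      cases hfin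
    | cons z r =>
      have hz := hch2.1 z rfl
      have hz2 : ∃ d, z = eL S T m n pt d ∧ S.tail d = Sum.inl m := by
        rcases dart_cases S T m n pt z with ⟨d, rfl⟩ | ⟨d, rfl⟩ | ⟨b, rfl⟩
        · exact ⟨d, rfl, ((turn_lk_eL S T m n pt _ _).1 hz).2⟩
        · have := ((turn_lk_eR S T m n pt _ _).1 hz).1
          cases this
        · exact absurd hz (not_turn_lk_lk S T m n pt _ _)
      obtain ⟨d, hd, hdn⟩ := hz2
      have hr : ∀ x, (z :: r).head? = some x → ∃ d, x = eL S T m n pt d := by
        intro x hx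
        rw [List.head?_cons, Option.some.injEq] at hx
        exact ⟨d, hx.symm.trans hd⟩
      rcases splitL S T m n pt (z :: r) hch2.2 hr with ⟨r', hr'⟩ | ⟨r', s, hr', -⟩
      · refine ⟨q, r', by rw [hpq, hr'], hq, ?_⟩
        have h3 := start_eL S T m n pt r'
        rw [← hr', List.head?_cons, Option.map_some, hd, tail_eL, hdn] at h3
        have h4 : Option.map (nodeL S T m n) (some (Sum.inl m)) =
          Option.map (nodeL S T m n) (r'.head?.map S.tail) := h3
        exact (Option.map_injective (nodeL_injective S T m n) h4).symm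
      · exfalso
        have hnd := hp.simple
        rw [hpq, hr', List.map_append] at hnd
        have hdj := List.disjoint_of_nodup_append hnd
        obtain ⟨d2, hd2, hd3⟩ := Option.map_eq_some_iff.1 hq
        have m1 : (Sum.inr (Sum.inr true) : ({v : V // v ≠ m} ⊕ {w : W // w ≠ n}) ⊕
            ((S.J ⊕ T.J) ⊕ Bool)) ∈
            (q.map (eR S T m n pt)).map (glue S T m n pt).head := by
          rw [heads_eR]
          refine List.mem_map.2 ⟨Sum.inl n, ?_, (nodeR_mark S T m n).2 ⟨rfl, rfl⟩⟩
          exact List.mem_map.2 ⟨d2, List.mem_of_getLast? hd2, hd3⟩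
        refine hdj m1 ?_
        refine List.mem_map.2 ⟨lk S T m n pt false, ?_, rfl⟩
        refine List.mem_cons_of_mem _ (List.mem_append_right _ ?_)
        exact List.mem_cons_self


/-- A smooth path from the left to the right. -/
theorem path_through {a : {v : V // v ≠ m}} {b : {w : W // w ≠ n}} {q : List S.Dart}
    {r : List T.Dart} (hq : q.getLast?.map S.head = some (Sum.inl m))
    (hr : r.head?.map T.tail = some (Sum.inl n)) :
    (glue S T m n pt).IsSmoothPath (Sum.inl a) (Sum.inr b)
      (q.map (eL S T m n pt) ++ lk S T m n pt false :: r.map (eR S T m n pt)) ↔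
      S.IsSmoothPath a.1 m q ∧ T.IsSmoothPath n b.1 r := by
  obtain ⟨dq, hdq, hdq2⟩ := Option.map_eq_some_iff.1 hq
  obtain ⟨dr, hdr, hdr2⟩ := Option.map_eq_some_iff.1 hr
  have hst : (q.map (eL S T m n pt) ++ lk S T m n pt false :: r.map (eR S T m n pt)).head?.map
      (glue S T m n pt).tail = (q.head?.map S.tail).map (nodeL S T m n) := by
    rw [← start_eL S T m n pt]
    cases q with
    | nil => simp at hdq
    | cons x q => rfl
  have hfi : (q.map (eL S T m n pt) ++ lk S T m n pt false :: r.map (eR S T m n pt)).getLast?.map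
      (glue S T m n pt).head = (r.getLast?.map T.head).map (nodeR S T m n) := by
    rw [← finish_eR S T m n pt, List.getLast?_append_cons]
    cases r with
    | nil => simp at hdr
    | cons x r => rw [List.map_cons, List.getLast?_cons_cons]
  have hhe : (q.map (eL S T m n pt) ++ lk S T m n pt false :: r.map (eR S T m n pt)).map
      (glue S T m n pt).head = (q.map S.head).map (nodeL S T m n) ++
        Sum.inr (Sum.inr true) :: (r.map T.head).map (nodeR S T m n) := by
    rw [List.map_append, List.map_cons, heads_eL, heads_eR]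
    rfl
  have hch : (q.map (eL S T m n pt) ++ lk S T m n pt false :: r.map (eR S T m n pt)).IsChain
      (glue S T m n pt).Turn ↔ q.IsChain S.Turn ∧ r.IsChain T.Turn := by
    rw [List.isChain_append, chain_eL, List.isChain_cons, chain_eR]
    constructor
    · rintro ⟨h1, ⟨-, h2⟩, -⟩
      exact ⟨h1, h2⟩
    · rintro ⟨h1, h2⟩
      refine ⟨h1, ⟨?_, h2⟩, ?_⟩
      · intro y hy
        rw [List.head?_map, hdr] at hy
        have : y = eR S T m n pt dr := by
          rw [Option.map_some, Option.mem_some_iff] at hy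
          exact hy.symm
        rw [this]
        exact (turn_lk_eR S T m n pt _ _).2 ⟨rfl, hdr2⟩
      · intro x hx y hy
        rw [List.getLast?_map, hdq] at hx
        have h3 : x = eL S T m n pt dq := by
          rw [Option.map_some, Option.mem_some_iff] at hx
          exact hx.symm
        have h4 : y = lk S T m n pt false := by
          rw [List.head?_cons, Option.mem_some_iff] at hy
          exact hy.symm
        rw [h3, h4]
        exact (turn_eL_lk S T m n pt _ _).2 ⟨rfl, hdq2⟩
  constructor
  · rintro ⟨h1, h2, h3, h4⟩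
    rw [hst] at h1
    rw [hfi] at h2
    rw [hch] at h3
    rw [hhe] at h4
    obtain ⟨h5, h6, -⟩ := List.nodup_append.1 h4
    have h6 := List.nodup_cons.1 h6
    refine ⟨⟨?_, hq, h3.1, (List.nodup_map_iff (nodeL_injective S T m n)).1 h5⟩,
      ⟨hr, ?_, h3.2, (List.nodup_map_iff (nodeR_injective S T m n)).1 h6.2⟩⟩
    · exact Option.map_injective (nodeL_injective S T m n)
        (h1.trans (congrArg some ((nodeL_inl S T m n).2 rfl).symm))
    · exact Option.map_injective (nodeR_injective S T m n)
        (h2.trans (congrArg some ((nodeR_inr S T m n).2 rfl).symm))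
  · rintro ⟨⟨h1, -, h3, h4⟩, ⟨k1, k2, k3, k4⟩⟩
    refine ⟨?_, ?_, hch.2 ⟨h3, k3⟩, ?_⟩
    · rw [hst, h1]
      exact congrArg some ((nodeL_inl S T m n).2 rfl)
    · rw [hfi, k2]
      exact congrArg some ((nodeR_inr S T m n).2 rfl)
    · rw [hhe]
      refine List.nodup_append.2 ⟨(List.nodup_map_iff (nodeL_injective S T m n)).2 h4, ?_, ?_⟩
      · refine List.nodup_cons.2 ⟨?_, (List.nodup_map_iff (nodeR_injective S T m n)).2 k4⟩
        intro hmem
        obtain ⟨x, hx, hx2⟩ := List.mem_map.1 hmem
        have hx3 := ((nodeR_mark S T m n).1 hx2).1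
        rw [hx3] at hx
        cases r with
        | nil => simp at hdr
        | cons d l =>
          have hl : ((d :: l).map T.head).getLast? = some (Sum.inl b.1) := by
            rw [List.getLast?_map]
            exact k2
          have e4 : (d :: l).map T.head = ((d :: l).map T.head).dropLast ++ [Sum.inl b.1] :=
            (List.dropLast_append_getLast? _ hl).symm
          rw [e4, List.mem_append, List.mem_singleton] at hx
          rcases hx with hx | hx
          · obtain ⟨j, hj⟩ := T.surg_dropLast_inr d l k3 _ hx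
            cases hj
          · exact b.2 (Sum.inl.inj hx).symm
      · intro x hx y hy hxy
        obtain ⟨x', -, hx'⟩ := List.mem_map.1 hx
        rcases List.mem_cons.1 hy with hy | hy
        · have h5 := (nodeL_mark S T m n).1 (hx'.trans (hxy.trans hy))
          cases h5.2
        · obtain ⟨y', -, hy'⟩ := List.mem_map.1 hy
          exact nodeL_ne_nodeR S T m n x' y' (hx'.trans (hxy.trans hy'.symm))

theorem through_iff {G : SimpleGraph V} {H : SimpleGraph W} (hS : S.Represents G)
    (hT : T.Represents H) (a : {v : V // v ≠ m}) (b : {w : W // w ≠ n}) :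
    (G.Adj a.1 m ∧ H.Adj b.1 n) ↔
      ∃ p, (glue S T m n pt).IsSmoothPath (Sum.inl a) (Sum.inr b) p := by
  constructor
  · rintro ⟨h1, h2⟩
    obtain ⟨q, hq⟩ := (hS a.1 m a.2).1 h1
    obtain ⟨r, hr⟩ := (hT n b.1 (fun h => b.2 h.symm)).1 (h2.symm)
    exact ⟨_, (path_through S T m n pt hq.finish hr.start).2 ⟨hq, hr⟩⟩
  · rintro ⟨p, hp⟩
    rcases crossL S T m n pt hp with ⟨q, rfl⟩ | ⟨q, r, rfl, h1, h2⟩
    · exfalso
      have h3 := hp.finish
      rw [finish_eL] at h3
      obtain ⟨x, -, hx⟩ := Option.map_eq_some_iff.1 h3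
      exact nodeL_ne_inr S T m n hx
    · obtain ⟨h3, h4⟩ := (path_through S T m n pt h1 h2).1 hp
      exact ⟨(hS a.1 m a.2).2 ⟨q, h3⟩,
        ((hT n b.1 (fun h => b.2 h.symm)).2 ⟨r, h4⟩).symm⟩

theorem represents {G : SimpleGraph V} {H : SimpleGraph W} (hS : S.Represents G)
    (hT : T.Represents H) : (glue S T m n pt).Represents (comp G m H n) := by
  rintro (a | a) (b | b) hne
  · show G.Adj a.1 b.1 ↔ _
    have hab : a.1 ≠ b.1 := fun h => hne (by rw [Subtype.ext h])
    rw [hS a.1 b.1 hab]
    constructor
    · rintro ⟨q, hq⟩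
      exact ⟨_, (pathL S T m n pt).2 hq⟩
    · rintro ⟨p, hp⟩
      rcases crossL S T m n pt hp with ⟨q, rfl⟩ | ⟨q, r, rfl, h1, h2⟩
      · exact ⟨q, (pathL S T m n pt).1 hp⟩
      · exfalso
        have h3 := hp.finish
        rw [List.getLast?_append_cons] at h3
        cases r with
        | nil => simp at h2
        | cons x r =>
          rw [List.map_cons, List.getLast?_cons_cons, ← List.map_cons, finish_eR] at h3
          obtain ⟨x, -, hx⟩ := Option.map_eq_some_iff.1 h3
          exact nodeR_ne_inl S T m n hx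
  · show (G.Adj a.1 m ∧ H.Adj b.1 n) ↔ _
    exact through_iff S T m n pt hS hT a b
  · show (G.Adj b.1 m ∧ H.Adj a.1 n) ↔ _
    rw [through_iff S T m n pt hS hT b a]
    constructor
    · rintro ⟨p, hp⟩
      obtain ⟨p', hp', -⟩ := smooth_reverse _ hp
      exact ⟨p', hp'⟩
    · rintro ⟨p, hp⟩
      obtain ⟨p', hp', -⟩ := smooth_reverse _ hp
      exact ⟨p', hp'⟩
  · show H.Adj a.1 b.1 ↔ _
    have hab : a.1 ≠ b.1 := fun h => hne (by rw [Subtype.ext h])
    rw [hT a.1 b.1 hab]
    constructor
    · rintro ⟨q, hq⟩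
      exact ⟨_, (pathR S T m n pt).2 hq⟩
    · rintro ⟨p, hp⟩
      rcases crossR S T m n pt hp with ⟨q, rfl⟩ | ⟨q, r, rfl, h1, h2⟩
      · exact ⟨q, (pathR S T m n pt).1 hp⟩
      · exfalso
        have h3 := hp.finish
        rw [List.getLast?_append_cons] at h3
        cases r with
        | nil => simp at h2
        | cons x r =>
          rw [List.map_cons, List.getLast?_cons_cons, ← List.map_cons, finish_eL] at h3
          obtain ⟨x, -, hx⟩ := Option.map_eq_some_iff.1 h3
          exact nodeL_ne_inr S T m n hx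

end Glue

end GlueAux

/-- Q6. Smooth paths of the glued skeleton. -/
theorem glue_represents {V W : Type} (S : Skel V) (T : Skel W) (m : V) (n : W)
    (pt : ({v : V // v ≠ m} ⊕ {w : W // w ≠ n}) ⊕ ((S.J ⊕ T.J) ⊕ Bool) → ℂ)
    {G : SimpleGraph V} {H : SimpleGraph W} (hS : S.Represents G) (hT : T.Represents H) :
    (glue S T m n pt).Represents (comp G m H n) :=
  GlueAux.represents S T m n pt hS hT

end Pool.Agent.Confl
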