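import Pool.Agent.Confl.S.Defs

/-!
# Gluing two pieces
-/

set_option autoImplicit false

open Filter Topology Set

namespace Pool.Agent.Confl

variable {V W : Type}

private noncomputable def mir (z : ℂ) : ℂ := - (starRingEnd ℂ) z

private theorem mir_re (z : ℂ) : (mir z).re = - z.re := by simp [mir]

private theorem mir_im (z : ℂ) : (mir z).im = z.im := by simp [mir]

private theorem mir_inj : Function.Injective mir := by
  intro z w h
  have h1 := congrArg Complex.re h
  have h2 := congrArg Complex.im h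
  rw [mir_re, mir_re] at h1
  rw [mir_im, mir_im] at h2
  exact Complex.ext (by linarith) h2

private theorem mir_cont : Continuous mir := by
  unfold mir
  exact (Complex.continuous_conj).neg

private theorem mir_norm (z : ℂ) : ‖mir z‖ = ‖z‖ := by simp [mir]

private theorem mir_mul (z p u : ℂ) : (mir z - mir p) * (starRingEnd ℂ) (mir u) =
    (starRingEnd ℂ) ((z - p) * (starRingEnd ℂ) u) := by
  simp only [mir, map_neg, map_mul, map_sub, Complex.conj_conj]
  ring

/-- the nodes of the two pieces -/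
private def glueE {m : V} {n : W} (P : Piece V m) (Q : Piece W n) :
    ({v : V // v ≠ m} ⊕ {w : W // w ≠ n}) ⊕ ((P.J ⊕ Q.J) ⊕ Bool) → (V ⊕ P.J) ⊕ (W ⊕ Q.J)
  | Sum.inl (Sum.inl v) => Sum.inl (Sum.inl v.1)
  | Sum.inl (Sum.inr w) => Sum.inr (Sum.inl w.1)
  | Sum.inr (Sum.inl (Sum.inl j)) => Sum.inl (Sum.inr j)
  | Sum.inr (Sum.inl (Sum.inr j)) => Sum.inr (Sum.inr j)
  | Sum.inr (Sum.inr false) => Sum.inl (Sum.inl m)
  | Sum.inr (Sum.inr true) => Sum.inr (Sum.inl n)

private theorem glueE_inj {m : V} {n : W} (P : Piece V m) (Q : Piece W n) :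
    Function.Injective (glueE P Q) := by
  rintro ((v | w) | ((j | j) | (_ | _))) ((v' | w') | ((j' | j') | (_ | _))) h <;>
    simp only [glueE, Sum.inl.injEq, Sum.inr.injEq, reduceCtorEq] at h <;>
    first
    | rfl
    | (subst h; rfl)
    | (rw [Subtype.ext h])
    | exact absurd h v.2
    | exact absurd h.symm v'.2
    | exact absurd h w.2
    | exact absurd h.symm w'.2

/-- the points -/
private noncomputable def glueF {m : V} {n : W} (P : Piece V m) (Q : Piece W n) :
    (V ⊕ P.J) ⊕ (W ⊕ Q.J) → ℂ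
  | Sum.inl x => P.pt x
  | Sum.inr x => mir (Q.pt x)

private theorem pt_le {m : V} (P : Piece V m) (x : V ⊕ P.J) : (P.pt x).re ≤ -1 := by
  rcases x with v | j
  · by_cases h : v = m
    · rw [h, P.marker]
    · exact (P.vertex_re v h).le
  · exact (P.junction j).2.le

private theorem cv_le {m : V} (P : Piece V m) (a : P.A) (t : unitInterval) :
    (P.curve a t).re ≤ -1 := by
  by_cases h0 : t = 0
  · have h1 := P.curve_par a false
    rw [show par false = 0 from rfl] at h1
    rw [h0, h1]
    exact pt_le P _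
  · by_cases h2 : t = 1
    · have h1 := P.curve_par a true
      rw [show par true = 1 from rfl] at h1
      rw [h2, h1]
      exact pt_le P _
    · exact (P.curve_int a t h0 h2).2.1.le

private theorem cv_eq {m : V} (P : Piece V m) (a : P.A) (t : unitInterval)
    (h : (P.curve a t).re = -1) : t = 0 ∨ t = 1 := by
  by_contra hcon
  rw [not_or] at hcon
  have := (P.curve_int a t hcon.1 hcon.2).2.1
  linarith

private theorem glueF_inj {m : V} {n : W} (P : Piece V m) (Q : Piece W n) :
    Function.Injective (glueF P Q) := by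
  rintro (x | x) (y | y) h
  · exact congrArg Sum.inl (P.pt_inj h)
  · exfalso
    have h1 := congrArg Complex.re h
    simp only [glueF, mir_re] at h1
    have h2 := pt_le P x
    have h3 := pt_le Q y
    linarith
  · exfalso
    have h1 := congrArg Complex.re h
    simp only [glueF, mir_re] at h1
    have h2 := pt_le P y
    have h3 := pt_le Q x
    linarith
  · exact congrArg Sum.inr (Q.pt_inj (mir_inj h))

/-- the points of the nodes -/
private noncomputable def gluePt {m : V} {n : W} (P : Piece V m) (Q : Piece W n) :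
    ({v : V // v ≠ m} ⊕ {w : W // w ≠ n}) ⊕ ((P.J ⊕ Q.J) ⊕ Bool) → ℂ :=
  fun x => glueF P Q (glueE P Q x)

private theorem glueE_nodeL {m : V} {n : W} (P : Piece V m) (Q : Piece W n) (x : V ⊕ P.J) :
    glueE P Q (nodeL P.toSkel Q.toSkel m n x) = Sum.inl x := by
  rcases x with v | j
  · by_cases h : v = m
    · subst h
      simp [nodeL, glueE]
    · simp [nodeL, glueE, h]
  · rfl

private theorem glueE_nodeR {m : V} {n : W} (P : Piece V m) (Q : Piece W n) (x : W ⊕ Q.J) :
    glueE P Q (nodeR P.toSkel Q.toSkel m n x) = Sum.inr x := by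
  rcases x with v | j
  · by_cases h : v = n
    · subst h
      simp [nodeR, glueE]
    · simp [nodeR, glueE, h]
  · rfl

/-- the curves -/
private noncomputable def glueC {m : V} {n : W} (P : Piece V m) (Q : Piece W n) :
    (P.A ⊕ Q.A) ⊕ Unit → unitInterval → ℂ
  | Sum.inl (Sum.inl a), t => P.curve a t
  | Sum.inl (Sum.inr a), t => mir (Q.curve a t)
  | Sum.inr _, t => ⟨-1 + 2 * (t : ℝ), -1⟩

/-- the tangents -/
private noncomputable def glueU {m : V} {n : W} (P : Piece V m) (Q : Piece W n) :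
    (P.J ⊕ Q.J) ⊕ Bool → ℂ
  | Sum.inl (Sum.inl j) => P.u j
  | Sum.inl (Sum.inr j) => mir (Q.u j)
  | Sum.inr false => -u1
  | Sum.inr true => mir (-u1)

private theorem norm_u1 : ‖u1‖ = 1 := by
  have h2 : (Real.sqrt 2)⁻¹ * (Real.sqrt 2)⁻¹ = 2⁻¹ := by
    rw [← mul_inv, Real.mul_self_sqrt (by norm_num)]
  rw [u1, Complex.norm_def, Complex.normSq_mk]
  rw [show -(Real.sqrt 2)⁻¹ * -(Real.sqrt 2)⁻¹ + (Real.sqrt 2)⁻¹ * (Real.sqrt 2)⁻¹ = 1 by
    rw [neg_mul_neg, h2]; norm_num]
  exact Real.sqrt_one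

private theorem link_eq {t : unitInterval} {z : ℂ} (h : z = ⟨-1 + 2 * (t : ℝ), -1⟩)
    (hz : z.re ≤ -1) : t = 0 ∧ z.re = -1 := by
  have h1 := congrArg Complex.re h
  have h2 : z.re = -1 + 2 * (t : ℝ) := h1
  have h3 := t.2.1
  have h4 : (t : ℝ) = 0 := by linarith
  exact ⟨Subtype.ext h4, by rw [h2, h4]; norm_num⟩

private theorem link_eq' {t : unitInterval} {z : ℂ} (h : mir z = ⟨-1 + 2 * (t : ℝ), -1⟩)
    (hz : z.re ≤ -1) : t = 1 ∧ z.re = -1 := by
  have h1 := congrArg Complex.re h
  rw [mir_re] at h1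
  have h2 : - z.re = -1 + 2 * (t : ℝ) := h1
  have h3 := t.2.2
  have h4 : (t : ℝ) = 1 := by linarith
  exact ⟨Subtype.ext h4, by rw [h4] at h2; linarith⟩

private theorem glueC_inj {m : V} {n : W} (P : Piece V m) (Q : Piece W n)
    (a : (P.A ⊕ Q.A) ⊕ Unit) : Function.Injective (glueC P Q a) := by
  rcases a with (a | a) | a
  · exact P.curve_inj a
  · exact mir_inj.comp (Q.curve_inj a)
  · intro s t h
    have h1 := congrArg Complex.re h
    have h2 : -1 + 2 * (s : ℝ) = -1 + 2 * (t : ℝ) := h1
    exact Subtype.ext (by linarith)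

private theorem glueC_cont {m : V} {n : W} (P : Piece V m) (Q : Piece W n)
    (a : (P.A ⊕ Q.A) ⊕ Unit) : Continuous (glueC P Q a) := by
  rcases a with (a | a) | a
  · exact P.curve_cont a
  · exact mir_cont.comp (Q.curve_cont a)
  · have h1 : glueC P Q (Sum.inr a) = fun t : unitInterval =>
        (((-1 + 2 * (t : ℝ) : ℝ)) : ℂ) + ((-1 : ℝ) : ℂ) * Complex.I := by
      funext t
      apply Complex.ext <;> simp [glueC]
    rw [h1]
    fun_prop

private theorem glueC_int {m : V} {n : W} (P : Piece V m) (Q : Piece W n)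
    (a : (P.A ⊕ Q.A) ⊕ Unit) (t : unitInterval) (h0 : t ≠ 0) (h1 : t ≠ 1) :
    (glueC P Q a t).im < 0 ∧ ∀ x, glueC P Q a t ≠ glueF P Q x := by
  rcases a with (a | a) | a
  · obtain ⟨h2, h3, h4⟩ := P.curve_int a t h0 h1
    refine ⟨h2, ?_⟩
    rintro (x | x)
    · exact h4 x
    · intro h
      have h5 := congrArg Complex.re h
      simp only [glueC, glueF, mir_re] at h5
      have h6 := pt_le Q x
      linarith
  · obtain ⟨h2, h3, h4⟩ := Q.curve_int a t h0 h1
    refine ⟨by simp only [glueC, mir_im]; exact h2, ?_⟩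
    rintro (x | x)
    · intro h
      have h5 := congrArg Complex.re h
      simp only [glueC, glueF, mir_re] at h5
      have h6 := pt_le P x
      linarith
    · intro h
      exact h4 x (mir_inj h)
  · refine ⟨by simp [glueC], ?_⟩
    rintro (x | x)
    · intro h
      exact h0 (link_eq (z := P.pt x) h.symm (pt_le P x)).1
    · intro h
      exact h1 (link_eq' (z := Q.pt x) h.symm (pt_le Q x)).1

private theorem glueC_disj {m : V} {n : W} (P : Piece V m) (Q : Piece W n)
    (a b : (P.A ⊕ Q.A) ⊕ Unit) (s t : unitInterval) (hab : a ≠ b)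
    (h : glueC P Q a s = glueC P Q b t) : (s = 0 ∨ s = 1) ∧ (t = 0 ∨ t = 1) := by
  rcases a with (a | a) | a <;> rcases b with (b | b) | b
  · exact P.curve_disj a b s t (fun e => hab (by rw [e])) h
  · exfalso
    have h5 := congrArg Complex.re h
    simp only [glueC, mir_re] at h5
    have h6 := cv_le P a s
    have h7 := cv_le Q b t
    linarith
  · have h1 := link_eq (z := P.curve a s) h (cv_le P a s)
    exact ⟨cv_eq P a s h1.2, Or.inl h1.1⟩
  · exfalso
    have h5 := congrArg Complex.re h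
    simp only [glueC, mir_re] at h5
    have h6 := cv_le P b t
    have h7 := cv_le Q a s
    linarith
  · exact Q.curve_disj a b s t (fun e => hab (by rw [e])) (mir_inj h)
  · have h1 := link_eq' (z := Q.curve a s) h (cv_le Q a s)
    exact ⟨cv_eq Q a s h1.2, Or.inr h1.1⟩
  · have h1 := link_eq (z := P.curve b t) h.symm (cv_le P b t)
    exact ⟨Or.inl h1.1, cv_eq P b t h1.2⟩
  · have h1 := link_eq' (z := Q.curve b t) h.symm (cv_le Q b t)
    exact ⟨Or.inr h1.1, cv_eq Q b t h1.2⟩
  · exact absurd rfl hab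

private theorem sqrt_pos2 : 0 < (Real.sqrt 2)⁻¹ := inv_pos.2 (Real.sqrt_pos.2 (by norm_num))

private theorem link_cone_false (t : unitInterval) (ht : t ≠ 0) :
    0 < (((⟨-1 + 2 * (t : ℝ), -1⟩ : ℂ) - ⟨-1, -1⟩) * (starRingEnd ℂ) (-u1)).re ∧
    |(((⟨-1 + 2 * (t : ℝ), -1⟩ : ℂ) - ⟨-1, -1⟩) * (starRingEnd ℂ) (-u1)).im| ≤
      1 * (((⟨-1 + 2 * (t : ℝ), -1⟩ : ℂ) - ⟨-1, -1⟩) * (starRingEnd ℂ) (-u1)).re := by
  have h1 : (⟨-1 + 2 * (t : ℝ), -1⟩ : ℂ) - ⟨-1, -1⟩ = ((2 * (t : ℝ) : ℝ) : ℂ) := by
    apply Complex.ext <;> simp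
  have h2 : 0 < (t : ℝ) := lt_of_le_of_ne t.2.1 fun h => ht (Subtype.ext h.symm)
  have h3 := sqrt_pos2
  rw [h1, Complex.re_ofReal_mul, Complex.im_ofReal_mul]
  simp only [u1, map_neg, Complex.neg_re, Complex.neg_im, Complex.conj_re, Complex.conj_im,
    neg_neg]
  refine ⟨by positivity, ?_⟩
  rw [abs_of_nonneg (by positivity), one_mul]

private theorem link_cone_true (t : unitInterval) (ht : t ≠ 1) :
    0 < (((⟨-1 + 2 * (t : ℝ), -1⟩ : ℂ) - mir ⟨-1, -1⟩) * (starRingEnd ℂ) (mir (-u1))).re ∧
    |(((⟨-1 + 2 * (t : ℝ), -1⟩ : ℂ) - mir ⟨-1, -1⟩) * (starRingEnd ℂ) (mir (-u1))).im| ≤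
      1 * (((⟨-1 + 2 * (t : ℝ), -1⟩ : ℂ) - mir ⟨-1, -1⟩) *
        (starRingEnd ℂ) (mir (-u1))).re := by
  have h1 : (⟨-1 + 2 * (t : ℝ), -1⟩ : ℂ) - mir ⟨-1, -1⟩ = ((-(2 * (1 - (t : ℝ))) : ℝ) : ℂ) := by
    apply Complex.ext
    · simp [mir]
      ring
    · simp [mir]
  have h2 : 0 < 1 - (t : ℝ) := sub_pos.2 (lt_of_le_of_ne t.2.2 fun h => ht (Subtype.ext h))
  have h3 := sqrt_pos2
  rw [h1, Complex.re_ofReal_mul, Complex.im_ofReal_mul]
  simp only [u1, mir, map_neg, Complex.neg_re, Complex.neg_im, Complex.conj_re, Complex.conj_im,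
    neg_neg]
  constructor
  · nlinarith [mul_pos h2 h3]
  · rw [one_mul, abs_le]
    constructor <;> nlinarith [mul_pos h2 h3]

private theorem glueC_cone {m : V} {n : W} (P : Piece V m) (Q : Piece W n)
    (a : (P.A ⊕ Q.A) ⊕ Unit) (b : Bool) (j : (P.J ⊕ Q.J) ⊕ Bool)
    (h : (glue P.toSkel Q.toSkel m n (gluePt P Q)).ep a b = Sum.inr j) :
    ∃ M : ℝ, ∀ᶠ t in 𝓝[≠] par b,
    0 < sgn ((glue P.toSkel Q.toSkel m n (gluePt P Q)).dir a b) *
      ((glueC P Q a t - gluePt P Q (Sum.inr j)) * (starRingEnd ℂ) (glueU P Q j)).re ∧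
    |((glueC P Q a t - gluePt P Q (Sum.inr j)) * (starRingEnd ℂ) (glueU P Q j)).im| ≤
      M * (sgn ((glue P.toSkel Q.toSkel m n (gluePt P Q)).dir a b) *
        ((glueC P Q a t - gluePt P Q (Sum.inr j)) * (starRingEnd ℂ) (glueU P Q j)).re) := by
  rcases a with (a | a) | a
  · -- arcs of `P`
    have h0 := congrArg (glueE P Q) h
    have h1 : glueE P Q (nodeL P.toSkel Q.toSkel m n (P.ep a b)) = glueE P Q (Sum.inr j) := h0
    rw [glueE_nodeL] at h1
    rcases j with (j | j) | (_ | _)
    · have h2 : P.ep a b = Sum.inr j := Sum.inl_injective h1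
      obtain ⟨M, hM⟩ := P.cone a b j h2
      refine ⟨M, hM.mono fun t ht => ?_⟩
      have h3 : (glue P.toSkel Q.toSkel m n (gluePt P Q)).dir (Sum.inl (Sum.inl a)) b =
          P.dir a b := by
        simp [glue, h2]
      rw [h3]
      exact ht
    · exact absurd h1 (by simp [glueE])
    · have h2 : P.ep a b = Sum.inl m := Sum.inl_injective h1
      obtain ⟨M, hM⟩ := P.cone_m a b h2
      refine ⟨M, hM.mono fun t ht => ?_⟩
      have h3 : (glue P.toSkel Q.toSkel m n (gluePt P Q)).dir (Sum.inl (Sum.inl a)) b =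
          false := by
        simp [glue, h2]
      have h4 : gluePt P Q (Sum.inr (Sum.inr false)) = ⟨-1, -1⟩ := P.marker
      rw [h3, h4]
      have h5 : (glueC P Q (Sum.inl (Sum.inl a)) t - ⟨-1, -1⟩) *
          (starRingEnd ℂ) (glueU P Q (Sum.inr false)) =
          -((P.curve a t - ⟨-1, -1⟩) * (starRingEnd ℂ) u1) := by
        simp only [glueU, glueC, map_neg, mul_neg]
      rw [h5, Complex.neg_re, Complex.neg_im, abs_neg]
      simp only [sgn, Bool.false_eq_true, if_false, neg_mul, one_mul, neg_neg]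
      exact ht
    · exact absurd h1 (by simp [glueE])
  · -- arcs of `Q`
    have h0 := congrArg (glueE P Q) h
    have h1 : glueE P Q (nodeR P.toSkel Q.toSkel m n (Q.ep a b)) = glueE P Q (Sum.inr j) := h0
    rw [glueE_nodeR] at h1
    rcases j with (j | j) | (_ | _)
    · exact absurd h1 (by simp [glueE])
    · have h2 : Q.ep a b = Sum.inr j := Sum.inr_injective h1
      obtain ⟨M, hM⟩ := Q.cone a b j h2
      refine ⟨M, hM.mono fun t ht => ?_⟩
      have h3 : (glue P.toSkel Q.toSkel m n (gluePt P Q)).dir (Sum.inl (Sum.inr a)) b =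
          Q.dir a b := by
        simp [glue, h2]
      rw [h3]
      have h5 : (glueC P Q (Sum.inl (Sum.inr a)) t - gluePt P Q (Sum.inr (Sum.inl (Sum.inr j)))) *
          (starRingEnd ℂ) (glueU P Q (Sum.inl (Sum.inr j))) =
          (starRingEnd ℂ) ((Q.curve a t - Q.pt (Sum.inr j)) * (starRingEnd ℂ) (Q.u j)) :=
        mir_mul _ _ _
      rw [h5, Complex.conj_re, Complex.conj_im, abs_neg]
      exact ht
    · exact absurd h1 (by simp [glueE])
    · have h2 : Q.ep a b = Sum.inl n := Sum.inr_injective h1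
      obtain ⟨M, hM⟩ := Q.cone_m a b h2
      refine ⟨M, hM.mono fun t ht => ?_⟩
      have h3 : (glue P.toSkel Q.toSkel m n (gluePt P Q)).dir (Sum.inl (Sum.inr a)) b =
          false := by
        simp [glue, h2]
      have h4 : gluePt P Q (Sum.inr (Sum.inr true)) = mir ⟨-1, -1⟩ := congrArg mir Q.marker
      rw [h3, h4]
      have h5 : (glueC P Q (Sum.inl (Sum.inr a)) t - mir ⟨-1, -1⟩) *
          (starRingEnd ℂ) (glueU P Q (Sum.inr true)) =
          (starRingEnd ℂ) (-((Q.curve a t - ⟨-1, -1⟩) * (starRingEnd ℂ) u1)) := by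
        rw [← mul_neg, ← map_neg]
        exact mir_mul _ _ _
      rw [h5, Complex.conj_re, Complex.conj_im, abs_neg, Complex.neg_re, Complex.neg_im, abs_neg]
      simp only [sgn, Bool.false_eq_true, if_false, neg_mul, one_mul, neg_neg]
      exact ht
  · -- the link
    have h1 : (Sum.inr (Sum.inr b) : ({v : V // v ≠ m} ⊕ {w : W // w ≠ n}) ⊕
      ((P.J ⊕ Q.J) ⊕ Bool)) = Sum.inr j := h
    have h2 : j = Sum.inr b := (Sum.inr_injective h1).symm
    subst h2
    refine ⟨1, ?_⟩
    have h3 : sgn ((glue P.toSkel Q.toSkel m n (gluePt P Q)).dir (Sum.inr a) b) = 1 := rfl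
    rw [h3]
    simp only [one_mul]
    cases b
    · have h4 : gluePt P Q (Sum.inr (Sum.inr false)) = ⟨-1, -1⟩ := P.marker
      rw [h4]
      filter_upwards [self_mem_nhdsWithin] with t ht
      have := link_cone_false t ht
      rw [one_mul] at this
      exact this
    · have h4 : gluePt P Q (Sum.inr (Sum.inr true)) = mir ⟨-1, -1⟩ := congrArg mir Q.marker
      rw [h4]
      filter_upwards [self_mem_nhdsWithin] with t ht
      have := link_cone_true t ht
      rw [one_mul] at this
      exact this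

/-- Q5. Gluing the piece `P` and the mirror image (`z ↦ - conj z`) of the piece `Q` with the
segment from `-1 - i` to `1 - i`; the tangents at the new junctions are `- u1` and its mirror
image. -/
theorem glue_weak {m : V} {n : W} (P : Piece V m) (Q : Piece W n) :
    ∃ pt, ∃ X : WeakDrawing ({v : V // v ≠ m} ⊕ {w : W // w ≠ n}),
      X.toSkel = glue P.toSkel Q.toSkel m n pt := by
  refine ⟨gluePt P Q, { toSkel := glue P.toSkel Q.toSkel m n (gluePt P Q)
                        finite_J := ?_
                        finite_A := ?_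
                        pt_inj := (glueF_inj P Q).comp (glueE_inj P Q)
                        vertex_im := ?_
                        junction_im := ?_
                        curve := glueC P Q
                        curve_cont := glueC_cont P Q
                        curve_inj := glueC_inj P Q
                        curve_par := ?_
                        curve_int := fun a t h0 h1 => ⟨(glueC_int P Q a t h0 h1).1,
                          fun x => (glueC_int P Q a t h0 h1).2 _⟩
                        curve_disj := glueC_disj P Q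
                        u := glueU P Q
                        norm_u := ?_
                        cone := glueC_cone P Q }, rfl⟩
  · have := P.finite_J
    have := Q.finite_J
    exact inferInstanceAs (Finite ((P.J ⊕ Q.J) ⊕ Bool))
  · have := P.finite_A
    have := Q.finite_A
    exact inferInstanceAs (Finite ((P.A ⊕ Q.A) ⊕ Unit))
  · rintro (v | w)
    · exact P.vertex_im v.1 v.2
    · exact (mir_im _).trans (Q.vertex_im w.1 w.2)
  · rintro ((j | j) | (_ | _))
    · exact (P.junction j).1
    · exact lt_of_eq_of_lt (mir_im _) (Q.junction j).1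
    · have h4 : gluePt P Q (Sum.inr (Sum.inr false)) = ⟨-1, -1⟩ := P.marker
      show (gluePt P Q (Sum.inr (Sum.inr false))).im < 0
      rw [h4]
      norm_num
    · have h4 : gluePt P Q (Sum.inr (Sum.inr true)) = mir ⟨-1, -1⟩ := congrArg mir Q.marker
      show (gluePt P Q (Sum.inr (Sum.inr true))).im < 0
      rw [h4, mir_im]
      norm_num
  · rintro ((a | a) | a) b
    · show P.curve a (par b) = glueF P Q (glueE P Q (nodeL P.toSkel Q.toSkel m n (P.ep a b)))
      rw [glueE_nodeL]
      exact P.curve_par a b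
    · show mir (Q.curve a (par b)) =
        glueF P Q (glueE P Q (nodeR P.toSkel Q.toSkel m n (Q.ep a b)))
      rw [glueE_nodeR]
      exact congrArg mir (Q.curve_par a b)
    · cases b
      · have h4 : gluePt P Q (Sum.inr (Sum.inr false)) = ⟨-1, -1⟩ := P.marker
        show (⟨-1 + 2 * ((par false : unitInterval) : ℝ), -1⟩ : ℂ) =
          gluePt P Q (Sum.inr (Sum.inr false))
        rw [h4]
        simp [par]
      · have h4 : gluePt P Q (Sum.inr (Sum.inr true)) = mir ⟨-1, -1⟩ := congrArg mir Q.marker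
        show (⟨-1 + 2 * ((par true : unitInterval) : ℝ), -1⟩ : ℂ) =
          gluePt P Q (Sum.inr (Sum.inr true))
        rw [h4]
        apply Complex.ext
        · simp [par, mir]
          norm_num
        · simp [par, mir]
  · rintro ((j | j) | (_ | _))
    · exact P.norm_u j
    · exact (mir_norm _).trans (Q.norm_u j)
    · show ‖-u1‖ = 1
      rw [norm_neg, norm_u1]
    · show ‖mir (-u1)‖ = 1
      rw [mir_norm, norm_neg, norm_u1]

end Pool.Agent.Confl
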