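import Pool.Agent.Confl.S.PieceP
import Pool.Agent.Confl.S.GlueW
import Pool.Agent.Confl.S.GlueR
import Pool.Agent.Confl.Upgrade

/-!
# Compositions of outerconfluent graphs are outerconfluent
-/

set_option autoImplicit false

open Filter Topology Set

namespace Pool.Agent.Confl

variable {V W : Type}

/-- The composition of two outerconfluent graphs is outerconfluent. -/
theorem outerconfluent_comp [Finite V] [Finite W] {G : SimpleGraph V} {H : SimpleGraph W}
    (m : V) (n : W) (hG : Outerconfluent G) (hH : Outerconfluent H) :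
    Outerconfluent (comp G m H n) := by
  obtain ⟨D, hD⟩ := hG
  obtain ⟨E, hE⟩ := hH
  obtain ⟨P, hP⟩ := exists_piece D m
  obtain ⟨Q, hQ⟩ := exists_piece E n
  obtain ⟨pt, X, hX⟩ := glue_weak P Q
  obtain ⟨F, hF⟩ := upgrade X
  refine ⟨F, ?_⟩
  have h : F.toSkel = glue P.toSkel Q.toSkel m n pt := hF.trans hX
  rw [h]
  exact glue_represents P.toSkel Q.toSkel m n pt (hP G hD) (hQ H hE)

end Pool.Agent.Confl
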