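import Pool.Agent.Confl.Upgrade
import Pool.Agent.Confl.Reflect

/-!
# Gluing two drawings at marker vertices: definitions
-/

set_option autoImplicit false

open Filter Topology Set

namespace Pool.Agent.Confl

variable {V W : Type}

/-- The composition of two graphs at the marker vertices `m`, `n`: the markers are removed and
every neighbour of `m` is joined to every neighbour of `n`. -/
def comp (G : SimpleGraph V) (m : V) (H : SimpleGraph W) (n : W) :
    SimpleGraph ({v : V // v ≠ m} ⊕ {w : W // w ≠ n}) where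
  Adj := fun a b => match a, b with
    | Sum.inl a, Sum.inl b => G.Adj a.1 b.1
    | Sum.inr a, Sum.inr b => H.Adj a.1 b.1
    | Sum.inl a, Sum.inr b => G.Adj a.1 m ∧ H.Adj b.1 n
    | Sum.inr a, Sum.inl b => G.Adj b.1 m ∧ H.Adj a.1 n
  symm := ⟨by
    rintro (a | a) (b | b) h
    · exact SimpleGraph.Adj.symm (G := G) h
    · exact h
    · exact h
    · exact SimpleGraph.Adj.symm (G := H) h⟩
  loopless := ⟨by
    rintro (a | a) h
    · exact (G.ne_of_adj h) rfl
    · exact (H.ne_of_adj h) rfl⟩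

open Classical in
/-- The node of the glued skeleton of a node of the left skeleton. -/
noncomputable def nodeL (S : Skel V) (T : Skel W) (m : V) (n : W) :
    V ⊕ S.J → ({v : V // v ≠ m} ⊕ {w : W // w ≠ n}) ⊕ ((S.J ⊕ T.J) ⊕ Bool)
  | Sum.inl v => if h : v = m then Sum.inr (Sum.inr false) else Sum.inl (Sum.inl ⟨v, h⟩)
  | Sum.inr j => Sum.inr (Sum.inl (Sum.inl j))

open Classical in
/-- The node of the glued skeleton of a node of the right skeleton. -/
noncomputable def nodeR (S : Skel V) (T : Skel W) (m : V) (n : W) :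
    W ⊕ T.J → ({v : V // v ≠ m} ⊕ {w : W // w ≠ n}) ⊕ ((S.J ⊕ T.J) ⊕ Bool)
  | Sum.inl w => if h : w = n then Sum.inr (Sum.inr true) else Sum.inl (Sum.inr ⟨w, h⟩)
  | Sum.inr j => Sum.inr (Sum.inl (Sum.inr j))

open Classical in
/-- The glued skeleton: the markers become junctions (`false`, `true`) joined by one more arc. -/
noncomputable def glue (S : Skel V) (T : Skel W) (m : V) (n : W)
    (pt : ({v : V // v ≠ m} ⊕ {w : W // w ≠ n}) ⊕ ((S.J ⊕ T.J) ⊕ Bool) → ℂ) :
    Skel ({v : V // v ≠ m} ⊕ {w : W // w ≠ n}) where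
  J := (S.J ⊕ T.J) ⊕ Bool
  A := (S.A ⊕ T.A) ⊕ Unit
  pt := pt
  ep := fun a b => match a with
    | Sum.inl (Sum.inl a) => nodeL S T m n (S.ep a b)
    | Sum.inl (Sum.inr a) => nodeR S T m n (T.ep a b)
    | Sum.inr _ => Sum.inr (Sum.inr b)
  dir := fun a b => match a with
    | Sum.inl (Sum.inl a) => if S.ep a b = Sum.inl m then false else S.dir a b
    | Sum.inl (Sum.inr a) => if T.ep a b = Sum.inl n then false else T.dir a b
    | Sum.inr _ => true

/-- The direction `exp (3 π i / 4)`. -/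
noncomputable def u1 : ℂ := ⟨-(Real.sqrt 2)⁻¹, (Real.sqrt 2)⁻¹⟩

/-- A drawing moved to the left of the line `Re z = -1`; the vertex `m` is the point `-1 - i`, and
the arcs arrive there from above and from the left. -/
structure Piece (V : Type) (m : V) extends Skel V where
  finite_J : Finite J
  finite_A : Finite A
  pt_inj : Function.Injective pt
  vertex_im : ∀ v, v ≠ m → (pt (Sum.inl v)).im = 0
  vertex_re : ∀ v, v ≠ m → (pt (Sum.inl v)).re < -1
  marker : pt (Sum.inl m) = ⟨-1, -1⟩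
  junction : ∀ j, (pt (Sum.inr j)).im < 0 ∧ (pt (Sum.inr j)).re < -1
  curve : A → unitInterval → ℂ
  curve_cont : ∀ a, Continuous (curve a)
  curve_inj : ∀ a, Function.Injective (curve a)
  curve_par : ∀ a b, curve a (par b) = pt (ep a b)
  curve_int : ∀ a t, t ≠ 0 → t ≠ 1 →
    (curve a t).im < 0 ∧ (curve a t).re < -1 ∧ ∀ x, curve a t ≠ pt x
  curve_disj : ∀ a b s t, a ≠ b → curve a s = curve b t → (s = 0 ∨ s = 1) ∧ (t = 0 ∨ t = 1)
  u : J → ℂ
  norm_u : ∀ j, ‖u j‖ = 1
  cone : ∀ a b j, ep a b = Sum.inr j → ∃ M : ℝ, ∀ᶠ t in 𝓝[≠] par b,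
    0 < sgn (dir a b) * ((curve a t - pt (Sum.inr j)) * (starRingEnd ℂ) (u j)).re ∧
    |((curve a t - pt (Sum.inr j)) * (starRingEnd ℂ) (u j)).im| ≤
      M * (sgn (dir a b) * ((curve a t - pt (Sum.inr j)) * (starRingEnd ℂ) (u j)).re)
  cone_m : ∀ a b, ep a b = Sum.inl m → ∃ M : ℝ, ∀ᶠ t in 𝓝[≠] par b,
    0 < ((curve a t - ⟨-1, -1⟩) * (starRingEnd ℂ) u1).re ∧
    |((curve a t - ⟨-1, -1⟩) * (starRingEnd ℂ) u1).im| ≤
      M * ((curve a t - ⟨-1, -1⟩) * (starRingEnd ℂ) u1).re

end Pool.Agent.Confl
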