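import Pool.Agent.Confl.S.ClassQ

/-!
# Recognition of outerconfluent graphs: splits and mild prime graphs
-/

set_option autoImplicit false

open Filter Topology Set Turing Computability

namespace Pool.Agent.Confl

theorem mainSQ :
    (∃ f : GInst → Bool, Nonempty (TM2ComputableInPolyTime enc encodeBool f) ∧
      (∀ I, f I = true ↔ ∃ x : Fin I.1 → ℝ, Function.Injective x ∧ LC I.2 x) ∧
      (∀ I, Outerconfluent I.2 → f I = true) ∧
      (∀ I, PrimesMild I.2 → (f I = true ↔ Outerconfluent I.2))) ∧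
    (∀ (V : Type) [Finite V] (G : SimpleGraph V),
      (Outerconfluent G ↔
        ∀ S : Set V, (¬ ∃ A, IsSplit G S A) → Outerconfluent (G.induce S)) ∧
      (∀ (A : Set V) (w z : V), w ∈ A → z ∉ A →
        (∀ a ∈ A, ∀ b ∉ A, (G.Adj a b ↔ G.Adj a z ∧ G.Adj w b)) →
        (Outerconfluent G ↔ Outerconfluent (G.induce (insert z A)) ∧
          Outerconfluent (G.induce (insert w Aᶜ)))) ∧
      ((∀ S : Set V, 5 ≤ S.ncard → ∃ A, IsSplit G S A) → PrimesMild G)) ∧
    (∀ (V : Type) [Finite V] (G : SimpleGraph V) (x : V → ℝ), Function.Injective x →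
      (OuterconfluentAt G x → LC G x) ∧
      (Mild G → (OuterconfluentAt G x ↔ LC G x)) ∧
      (G.Connected → (LC G x ↔ ArcProp G x))) ∧
    (∀ (V : Type) (G : SimpleGraph V), (Mild G → PrimesMild G) ∧ (G.CliqueFree 3 → Mild G) ∧
      ((∀ a b c d, G.Adj a b → G.Adj a c → G.Adj b c → G.Adj a d → G.Adj b d → c ≠ d →
        G.Adj c d) → Mild G) ∧
      (G.CliqueFree 4 → PathFree G → Mild G)) := by
  obtain ⟨⟨f, hf, h1, h2, -⟩, h5⟩ := main
  refine ⟨⟨f, hf, h1, h2, fun I hI => ⟨fun h => ?_, fun h => h2 I h⟩⟩, ?_, ?_, ?_⟩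
  · obtain ⟨x, hx, hlc⟩ := (h1 I).1 h
    exact outerconfluent_of_primesMild I.2 hI x hx hlc
  · intro V _ G
    exact ⟨outerconfluent_iff_primes G, fun A w z hw hz hm => outerconfluent_cut G A w z hw hz hm,
      fun h => primesMild_of_splits h⟩
  · intro V _ G x hx
    obtain ⟨e1, -, e3⟩ := h5 V G x hx
    exact ⟨e1, fun h3 => ⟨e1, outerconfluentAt_of_lcQ G x hx h3⟩, e3⟩
  · intro V G
    exact ⟨fun h => h.primes, mild_of_cliqueFree_three, mild_of_diamond,
      mild_of_cliqueFree_four⟩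

end Pool.Agent.Confl
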