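import Pool.Agent.Confl.S.Defs

/-!
# Images of drawings under conformal maps
-/

set_option autoImplicit false

open Filter Topology Set

namespace Pool.Agent.Confl

variable {V W : Type}

/-- Q0. One-sided tangents under maps with nonzero derivative. -/
theorem tangent_map {c : unitInterval → ℂ} {p : unitInterval} {z v f' : ℂ} {f : ℂ → ℂ}
    (hc : Continuous c) (hp : c p = z) (hne : ∀ᶠ t in 𝓝[≠] p, c t ≠ z)
    (ht : Tendsto (fun t => (c t - z) / (‖c t - z‖ : ℂ)) (𝓝[≠] p) (𝓝 v))
    (hf : HasDerivAt f f' z) (hf' : f' ≠ 0) :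
    Tendsto (fun t => (f (c t) - f z) / (‖f (c t) - f z‖ : ℂ)) (𝓝[≠] p)
      (𝓝 (f' / (‖f'‖ : ℂ) * v)) := by
  have h1 : Tendsto c (𝓝[≠] p) (𝓝[≠] z) := by
    refine tendsto_nhdsWithin_iff.2 ⟨?_, hne⟩
    have h2 := (hc.tendsto p).mono_left (nhdsWithin_le_nhds (s := {p}ᶜ))
    rwa [hp] at h2
  have h3 : Tendsto (fun t => (f (c t) - f z) / (c t - z)) (𝓝[≠] p) (𝓝 f') := by
    have h4 := (hasDerivAt_iff_tendsto_slope.1 hf).comp h1
    refine h4.congr fun t => ?_
    simp only [Function.comp, slope_def_field]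
  have h5 : Tendsto (fun t => ((f (c t) - f z) / (c t - z)) /
      (‖(f (c t) - f z) / (c t - z)‖ : ℂ)) (𝓝[≠] p) (𝓝 (f' / (‖f'‖ : ℂ))) := by
    refine h3.div ?_ ?_
    · exact (Complex.continuous_ofReal.tendsto _).comp h3.norm
    · exact_mod_cast norm_ne_zero_iff.2 hf'
  refine (h5.mul ht).congr' ?_
  filter_upwards [hne] with t hct
  have h6 : c t - z ≠ 0 := sub_ne_zero.2 hct
  have h7 : (‖c t - z‖ : ℂ) ≠ 0 := by exact_mod_cast norm_ne_zero_iff.2 h6
  rw [norm_div]
  by_cases h8 : f (c t) - f z = 0
  · rw [h8]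
    simp
  · have h9 : (‖f (c t) - f z‖ : ℂ) ≠ 0 := by exact_mod_cast norm_ne_zero_iff.2 h8
    push_cast
    field_simp

/-- Q1. The image of a drawing under a map which is holomorphic in the open lower half plane, and
continuous and injective on a set `S` containing it and the vertices. -/
theorem map_drawing (D : Drawing V) (f : ℂ → ℂ) (S : Set ℂ) (hS : ∀ z : ℂ, z.im < 0 → z ∈ S)
    (hV : ∀ v, D.pt (Sum.inl v) ∈ S) (hc : ContinuousOn f S) (hi : InjOn f S)
    (hre : ∀ z ∈ S, z.im = 0 → (f z).im = 0) (hneg : ∀ z : ℂ, z.im < 0 → (f z).im < 0)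
    (hd : ∀ z : ℂ, z.im < 0 → ∃ f' : ℂ, f' ≠ 0 ∧ HasDerivAt f f' z) :
    ∃ D' : Drawing V, (∀ v, D'.pt (Sum.inl v) = f (D.pt (Sum.inl v))) ∧
      ∀ G : SimpleGraph V, D.Represents G → D'.Represents G := by
  have hpt : ∀ x, D.pt x ∈ S := by
    rintro (v | j)
    · exact hV v
    · exact hS _ (D.junction_im j)
  have hcv : ∀ a t, D.curve a t ∈ S := by
    intro a t
    by_cases h0 : t = 0
    · have h1 := D.curve_par a false
      rw [show par false = 0 from rfl] at h1
      rw [h0, h1]
      exact hpt _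
    · by_cases h2 : t = 1
      · have h1 := D.curve_par a true
        rw [show par true = 1 from rfl] at h1
        rw [h2, h1]
        exact hpt _
      · exact hS _ (D.curve_int a t h0 h2).1
  choose g hg0 hg using fun j : D.J => hd _ (D.junction_im j)
  refine ⟨{ J := D.J
            A := D.A
            pt := fun x => f (D.pt x)
            ep := D.ep
            dir := D.dir
            finite_J := D.finite_J
            finite_A := D.finite_A
            pt_inj := fun x y h => D.pt_inj (hi (hpt x) (hpt y) h)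
            vertex_im := fun v => hre _ (hV v) (D.vertex_im v)
            junction_im := fun j => hneg _ (D.junction_im j)
            curve := fun a t => f (D.curve a t)
            curve_cont := fun a => hc.comp_continuous (D.curve_cont a) (hcv a)
            curve_inj := fun a s t h => D.curve_inj a (hi (hcv a s) (hcv a t) h)
            curve_par := fun a b => congrArg f (D.curve_par a b)
            curve_int := fun a t h0 h1 => ⟨hneg _ (D.curve_int a t h0 h1).1, fun x h =>
              (D.curve_int a t h0 h1).2 x (hi (hcv a t) (hpt x) h)⟩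
            curve_disj := fun a b s t hab h => D.curve_disj a b s t hab (hi (hcv a s) (hcv b t) h)
            u := fun j => g j / (‖g j‖ : ℂ) * D.u j
            norm_u := fun j => ?_
            tangent := fun a b j h => ?_ }, fun v => rfl, ?_⟩
  · have h1 : ‖g j‖ ≠ 0 := norm_ne_zero_iff.2 (hg0 j)
    rw [norm_mul, norm_div, Complex.norm_real, norm_norm, div_self h1, D.norm_u j, one_mul]
  · have h1 : D.curve a (par b) = D.pt (Sum.inr j) := by rw [D.curve_par, h]
    have h2 := tangent_map (D.curve_cont a) h1 (by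
      filter_upwards [self_mem_nhdsWithin] with t ht h3
      exact ht (D.curve_inj a (h3.trans h1.symm))) (D.tangent a b j h) (hg j) (hg0 j)
    rw [mul_left_comm] at h2
    exact h2
  · intro G hG u v huv
    rw [hG u v huv]
    constructor
    · rintro ⟨p, hp⟩
      exact ⟨p, ⟨hp.start, hp.finish, hp.turns, hp.simple⟩⟩
    · rintro ⟨p, hp⟩
      exact ⟨p, ⟨hp.start, hp.finish, hp.turns, hp.simple⟩⟩

end Pool.Agent.Confl
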