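import Pool.Agent.Confl.S.MapD

/-!
# A drawing with a marker vertex at zero
-/

set_option autoImplicit false

open Filter Topology Set

namespace Pool.Agent.Confl

variable {V W : Type}

/-- Q2. Rotation and scaling: the marker goes to `0`, all other vertices to the left of `-1`.
(`z ↦ -1/(z - t)` with a real `t` slightly to the right of the marker, then `z ↦ K (z - c)`.) -/
theorem exists_marker [Finite V] (D : Drawing V) (m : V) :
    ∃ D' : Drawing V, D'.pt (Sum.inl m) = 0 ∧ (∀ v, v ≠ m → (D'.pt (Sum.inl v)).re < -1) ∧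
      ∀ G : SimpleGraph V, D.Represents G → D'.Represents G := by
  have hreal : ∀ v, D.pt (Sum.inl v) = ((D.pt (Sum.inl v)).re : ℂ) := fun v =>
    Complex.ext (by simp) (by simp [D.vertex_im v])
  have hne : ∀ v, v ≠ m → (D.pt (Sum.inl v)).re ≠ (D.pt (Sum.inl m)).re := by
    intro v hv h
    refine hv (Sum.inl_injective (D.pt_inj ?_))
    rw [hreal v, hreal m, h]
  set x : V → ℝ := fun v => (D.pt (Sum.inl v)).re with hx
  -- the pole
  obtain ⟨t, ht1, ht2⟩ : ∃ t : ℝ, x m < t ∧ ∀ v, v ≠ m → x v < x m ∨ t < x v := by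
    have h1 : ∀ᶠ t in 𝓝[>] (x m), ∀ v, v ≠ m → x v < x m ∨ t < x v := by
      rw [Filter.eventually_all]
      intro v
      by_cases hv : v = m
      · exact Filter.Eventually.of_forall fun t h => absurd hv h
      · rcases lt_or_gt_of_ne (hne v hv) with h | h
        · exact Filter.Eventually.of_forall fun t _ => Or.inl h
        · have h2 : ∀ᶠ t in 𝓝[>] (x m), t < x v :=
            (eventually_lt_nhds h).filter_mono nhdsWithin_le_nhds
          exact h2.mono fun t ht _ => Or.inr ht
    obtain ⟨t, h2, h3⟩ := (h1.and self_mem_nhdsWithin).exists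
    exact ⟨t, h3, h2⟩
  have hgt : ∀ v, v ≠ m → -1 / (x v - t) < -1 / (x m - t) := by
    intro v hv
    have h0 : x m - t < 0 := by linarith
    have h4 : -1 / (x m - t) = 1 / (t - x m) := by
      rw [← neg_sub t (x m), neg_div_neg_eq]
    have h5 : -1 / (x v - t) = 1 / (t - x v) := by
      rw [← neg_sub t (x v), neg_div_neg_eq]
    rw [h4, h5]
    rcases ht2 v hv with h | h
    · exact one_div_lt_one_div_of_lt (by linarith) (by linarith)
    · have h6 : 1 / (t - x v) < 0 := one_div_neg.2 (by linarith)
      have h7 : 0 < 1 / (t - x m) := one_div_pos.2 (by linarith)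
      linarith
  -- the factor
  obtain ⟨K, hK0, hK⟩ : ∃ K : ℝ, 0 < K ∧ ∀ v, v ≠ m →
      K * (-1 / (x v - t) - -1 / (x m - t)) < -1 := by
    have h1 : ∀ᶠ K : ℝ in atTop, ∀ v, v ≠ m → K * (-1 / (x v - t) - -1 / (x m - t)) < -1 := by
      rw [Filter.eventually_all]
      intro v
      by_cases hv : v = m
      · exact Filter.Eventually.of_forall fun t h => absurd hv h
      · have h2 : 0 < -1 / (x m - t) - -1 / (x v - t) := sub_pos.2 (hgt v hv)
        filter_upwards [Filter.eventually_gt_atTop (1 / (-1 / (x m - t) - -1 / (x v - t)))] with K h3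
        intro _
        rw [div_lt_iff₀ h2] at h3
        linarith
    obtain ⟨K, h2, h3⟩ := (h1.and (Filter.eventually_gt_atTop 0)).exists
    exact ⟨K, h3, h2⟩
  set g : ℂ → ℂ := fun z => (K : ℂ) * (-1 / (z - t) - -1 / ((x m : ℂ) - t)) with hg
  have hgr : ∀ y : ℝ, g y = ((K * (-1 / (y - t) - -1 / (x m - t)) : ℝ) : ℂ) := by
    intro y
    rw [hg]
    push_cast
    ring
  have hKC : (K : ℂ) ≠ 0 := by exact_mod_cast hK0.ne'
  have him : ∀ z : ℂ, (g z).im = K * (z.im / Complex.normSq (z - t)) := by
    intro z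
    rw [hg]
    have h1 : ((K : ℂ) * (-1 / (z - t) - -1 / ((x m : ℂ) - t))).im =
        K * (-1 / (z - t) - -1 / ((x m : ℂ) - t)).im := Complex.im_ofReal_mul K _
    show ((K : ℂ) * (-1 / (z - t) - -1 / ((x m : ℂ) - t))).im = _
    have h2 : (-1 / ((x m : ℂ) - t)).im = 0 := by
      have h3 : (-1 / ((x m : ℂ) - t)) = ((-1 / (x m - t) : ℝ) : ℂ) := by push_cast; ring
      rw [h3, Complex.ofReal_im]
    have h4 : (-1 / (z - t)).im = z.im / Complex.normSq (z - t) := by
      rw [neg_div, one_div, Complex.neg_im, Complex.inv_im, Complex.sub_im, Complex.ofReal_im]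
      ring
    rw [h1, Complex.sub_im, h2, h4, sub_zero]
  have key : ∃ D' : Drawing V, (∀ v, D'.pt (Sum.inl v) = g (D.pt (Sum.inl v))) ∧
      ∀ G : SimpleGraph V, D.Represents G → D'.Represents G := by
    refine map_drawing D g {z : ℂ | z ≠ (t : ℂ)} ?_ ?_ ?_ ?_ ?_ ?_ ?_
    · intro z hz h
      rw [h, Complex.ofReal_im] at hz
      exact lt_irrefl _ hz
    · intro v h
      have h3 : x v = t := by
        have h4 := congrArg Complex.re h
        rwa [Complex.ofReal_re] at h4
      by_cases hv : v = m
      · rw [hv] at h3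
        linarith
      · rcases ht2 v hv with h4 | h4 <;> linarith
    · intro z hz
      have h3 : z - t ≠ 0 := sub_ne_zero.2 hz
      have h4 : ContinuousAt g z := by
        rw [hg]
        have h5 : ContinuousAt (fun z : ℂ => -1 / (z - t)) z :=
          continuousAt_const.div (continuousAt_id.sub continuousAt_const) h3
        exact continuousAt_const.mul (h5.sub continuousAt_const)
      exact h4.continuousWithinAt
    · intro z hz w hw h
      rw [hg] at h
      have h3 : z - t ≠ 0 := sub_ne_zero.2 hz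
      have h4 : w - t ≠ 0 := sub_ne_zero.2 hw
      have h5 := mul_left_cancel₀ hKC h
      have h6 : -1 / (z - t) = -1 / (w - t) := sub_left_injective h5
      rw [div_eq_div_iff h3 h4] at h6
      linear_combination h6
    · intro z _ hz
      rw [him, hz, zero_div, mul_zero]
    · intro z hz
      rw [him]
      have h3 : 0 < Complex.normSq (z - t) := by
        rw [Complex.normSq_pos]
        intro h
        rw [sub_eq_zero] at h
        rw [h, Complex.ofReal_im] at hz
        exact lt_irrefl _ hz
      exact mul_neg_of_pos_of_neg hK0 (div_neg_of_neg_of_pos hz h3)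
    · intro z hz
      have h3 : z - t ≠ 0 := by
        intro h
        rw [sub_eq_zero] at h
        rw [h, Complex.ofReal_im] at hz
        exact lt_irrefl _ hz
      refine ⟨(K : ℂ) * (1 / (z - t) ^ 2), mul_ne_zero hKC (one_div_ne_zero (pow_ne_zero _ h3)), ?_⟩
      have h4 : HasDerivAt (fun z : ℂ => -1 / (z - t)) (1 / (z - t) ^ 2) z := by
        have h5 := (hasDerivAt_const z (-1 : ℂ)).div ((hasDerivAt_id z).sub_const (t : ℂ)) h3
        refine HasDerivAt.congr_deriv (f := fun z : ℂ => -1 / (z - t)) h5 ?_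
        rw [zero_mul, zero_sub, mul_one, neg_neg]
        rfl
      rw [hg]
      exact (h4.sub_const _).const_mul _
  obtain ⟨D', h1, h2⟩ := key
  refine ⟨D', ?_, ?_, h2⟩
  · rw [h1, hreal m, hgr]
    show ((K * (-1 / (x m - t) - -1 / (x m - t)) : ℝ) : ℂ) = 0
    rw [sub_self, mul_zero, Complex.ofReal_zero]
  · intro v hv
    rw [h1, hreal v, hgr, Complex.ofReal_re]
    exact hK v hv

end Pool.Agent.Confl
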