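import Pool.Agent.Confl.S.Defs

/-! # Package Q3: the conformal map `W` -/

set_option autoImplicit false

open Filter Topology Set

namespace Pool.Agent.Confl

namespace WMap

/-- the square root on the closed upper half plane -/
noncomputable def rt (w : ℂ) : ℂ := ⟨√((‖w‖ + w.re) / 2), √((‖w‖ - w.re) / 2)⟩

theorem rt_cont : Continuous rt := by
  have h : rt = fun w : ℂ => ((√((‖w‖ + w.re) / 2) : ℝ) : ℂ) +
      ((√((‖w‖ - w.re) / 2) : ℝ) : ℂ) * Complex.I := by
    funext w
    exact Complex.ext (by simp [rt]) (by simp [rt])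
  rw [h]
  fun_prop

theorem re_le (w : ℂ) : 0 ≤ (‖w‖ + w.re) / 2 := by
  have := Complex.abs_re_le_norm w
  have := neg_abs_le w.re
  linarith

theorem re_le' (w : ℂ) : 0 ≤ (‖w‖ - w.re) / 2 := by
  have := Complex.abs_re_le_norm w
  have := le_abs_self w.re
  linarith

theorem rt_mul (w : ℂ) (hw : 0 ≤ w.im) : rt w * rt w = w := by
  have h1 := Real.mul_self_sqrt (re_le w)
  have h2 := Real.mul_self_sqrt (re_le' w)
  have h3 : √((‖w‖ + w.re) / 2) * √((‖w‖ - w.re) / 2) = w.im / 2 := by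
    rw [← Real.sqrt_mul (re_le w)]
    have h4 : (‖w‖ + w.re) / 2 * ((‖w‖ - w.re) / 2) = (w.im / 2) ^ 2 := by
      have h5 := Complex.sq_norm w
      rw [Complex.normSq_apply] at h5
      nlinarith
    rw [h4, Real.sqrt_sq (by linarith)]
  apply Complex.ext
  · rw [Complex.mul_re]
    change √((‖w‖ + w.re) / 2) * √((‖w‖ + w.re) / 2) - √((‖w‖ - w.re) / 2) * √((‖w‖ - w.re) / 2)
      = w.re
    rw [h1, h2]; ring
  · rw [Complex.mul_im]
    change √((‖w‖ + w.re) / 2) * √((‖w‖ - w.re) / 2) + √((‖w‖ - w.re) / 2) * √((‖w‖ + w.re) / 2)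
      = w.im
    rw [mul_comm (√((‖w‖ - w.re) / 2)), h3]; ring

theorem rt_re (w : ℂ) : 0 ≤ (rt w).re := Real.sqrt_nonneg _

theorem rt_im (w : ℂ) : 0 ≤ (rt w).im := Real.sqrt_nonneg _

theorem rt_pos (w : ℂ) (hw : 0 < w.im) : 0 < (rt w).re ∧ 0 < (rt w).im := by
  have h := rt_mul w hw.le
  have h1 : (rt w).re * (rt w).im + (rt w).im * (rt w).re = w.im := by
    rw [← Complex.mul_im, h]
  have h2 := rt_re w
  have h3 := rt_im w
  constructor
  · rcases h2.lt_or_eq with h4 | h4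
    · exact h4
    · rw [← h4] at h1; simp at h1; linarith
  · rcases h3.lt_or_eq with h4 | h4
    · exact h4
    · rw [← h4] at h1; simp at h1; linarith

theorem rt_deriv (w : ℂ) (hw : 0 < w.im) : HasDerivAt rt (2 * rt w)⁻¹ w := by
  have h1 : HasDerivAt (fun z : ℂ => z * z) (2 * rt w) (rt w) := by
    have h := (hasDerivAt_id' (rt w)).fun_mul (hasDerivAt_id' (rt w))
    rw [one_mul, mul_one, ← two_mul] at h
    exact h
  refine HasDerivAt.of_local_left_inverse (f := fun z : ℂ => z * z) rt_cont.continuousAt h1 ?_ ?_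
  · have h2 := (rt_pos w hw).1
    intro h3
    have h4 : rt w = 0 := by simpa using h3
    rw [h4] at h2
    simp at h2
  · have : ∀ᶠ y in 𝓝 w, 0 < y.im :=
      (isOpen_lt continuous_const Complex.continuous_im).mem_nhds hw
    filter_upwards [this] with y hy
    exact rt_mul y hy.le

theorem rt_inj (w w' : ℂ) (hw : 0 ≤ w.im) (hw' : 0 ≤ w'.im) (h : rt w = rt w') : w = w' := by
  rw [← rt_mul w hw, ← rt_mul w' hw', h]

theorem rt_zero : rt 0 = 0 := by
  apply Complex.ext <;> simp [rt]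

theorem rt_neg_one : rt (-1) = Complex.I := by
  apply Complex.ext
  · simp [rt]
  · simp [rt]

/-- the map -/
noncomputable def W (z : ℂ) : ℂ := - rt (rt (-z) - 1)

end WMap

open WMap

theorem exists_W : ∃ f : ℂ → ℂ, ContinuousOn f {z | z.im ≤ 0} ∧ InjOn f {z | z.im ≤ 0} ∧
    (∀ z : ℂ, z.im < 0 → (f z).im < 0 ∧ (f z).re < 0) ∧
    (∀ z : ℂ, z.im < 0 → ∃ f' : ℂ, f' ≠ 0 ∧ HasDerivAt f f' z) ∧
    (∀ r : ℝ, r < -1 → (f r).im = 0 ∧ (f r).re < 0) ∧ f 0 = ⟨0, -1⟩ ∧
    ∃ M : ℝ, ∀ᶠ z in 𝓝[{z : ℂ | z.im ≤ 0 ∧ z ≠ 0}] (0 : ℂ),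
      0 < ((f z - ⟨0, -1⟩) * (starRingEnd ℂ) u1).re ∧
      |((f z - ⟨0, -1⟩) * (starRingEnd ℂ) u1).im| ≤
        M * ((f z - ⟨0, -1⟩) * (starRingEnd ℂ) u1).re := by
  have him : ∀ z : ℂ, (rt z - 1).im = (rt z).im := fun z => by simp
  have hW0 : W 0 = ⟨0, -1⟩ := by
    rw [W, neg_zero, rt_zero, zero_sub, rt_neg_one]
    apply Complex.ext <;> simp
  refine ⟨W, ?_, ?_, ?_, ?_, ?_, hW0, ?_⟩
  · exact (rt_cont.comp ((rt_cont.comp continuous_neg).sub continuous_const)).neg.continuousOn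
  · intro z hz z' hz' h
    have h1 : rt (rt (-z) - 1) = rt (rt (-z') - 1) := neg_injective h
    have h2 := rt_inj _ _ (by rw [him]; exact rt_im _) (by rw [him]; exact rt_im _) h1
    have h3 := rt_inj (-z) (-z') (by simpa using hz) (by simpa using hz') (sub_left_injective h2)
    exact neg_injective h3
  · intro z hz
    have h1 := (rt_pos (-z) (by simpa using hz)).2
    have h2 := rt_pos (rt (-z) - 1) (by rw [him]; exact h1)
    exact ⟨by simpa [W] using h2.2, by simpa [W] using h2.1⟩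
  · intro z hz
    have h1 := rt_pos (-z) (by simpa using hz)
    have h2 := rt_pos (rt (-z) - 1) (by rw [him]; exact h1.2)
    have h3 : HasDerivAt (fun z : ℂ => rt (-z) - 1) ((2 * rt (-z))⁻¹ * (-1)) z :=
      ((rt_deriv (-z) (by simpa using hz)).comp z (hasDerivAt_neg z)).sub_const 1
    have h4 := ((rt_deriv (rt (-z) - 1) (by rw [him]; exact h1.2)).comp z h3).neg
    refine ⟨_, ?_, h4⟩
    have h5 : rt (-z) ≠ 0 := by
      intro h; rw [h] at h1; simp at h1
    have h6 : rt (rt (-z) - 1) ≠ 0 := by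
      intro h; rw [h] at h2; simp at h2
    simp [h5, h6]
  · intro r hr
    have h1 : rt (-(r : ℂ)) = ((√(-r) : ℝ) : ℂ) := by
      have hn : ‖(-(r : ℂ))‖ = -r := by
        rw [norm_neg, Complex.norm_real, Real.norm_eq_abs, abs_of_neg (by linarith)]
      apply Complex.ext
      · change √((‖(-(r : ℂ))‖ + (-(r : ℂ)).re) / 2) = _
        rw [hn, Complex.neg_re, Complex.ofReal_re, Complex.ofReal_re]
        congr 1; ring
      · change √((‖(-(r : ℂ))‖ - (-(r : ℂ)).re) / 2) = _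
        rw [hn, Complex.neg_re, Complex.ofReal_re, Complex.ofReal_im]
        simp
    have h2 : 1 < √(-r) := by
      rw [Real.lt_sqrt (by norm_num)]
      linarith
    have h3 : rt (((√(-r) : ℝ) : ℂ) - 1) = ((√(√(-r) - 1) : ℝ) : ℂ) := by
      have e1 : (((√(-r) : ℝ) : ℂ) - 1) = ((√(-r) - 1 : ℝ) : ℂ) := by push_cast; rfl
      have hn : ‖((√(-r) - 1 : ℝ) : ℂ)‖ = √(-r) - 1 := by
        rw [Complex.norm_real, Real.norm_eq_abs, abs_of_pos (by linarith)]
      rw [e1]
      apply Complex.ext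
      · change √((‖((√(-r) - 1 : ℝ) : ℂ)‖ + (((√(-r) - 1 : ℝ) : ℂ)).re) / 2) = _
        rw [hn, Complex.ofReal_re, Complex.ofReal_re]
        congr 1; ring
      · change √((‖((√(-r) - 1 : ℝ) : ℂ)‖ - (((√(-r) - 1 : ℝ) : ℂ)).re) / 2) = _
        rw [hn, Complex.ofReal_re, Complex.ofReal_im]
        simp
    have h4 : W r = -((√(√(-r) - 1) : ℝ) : ℂ) := by rw [W, h1, h3]
    rw [h4]
    constructor
    · simp
    · rw [Complex.neg_re, Complex.ofReal_re]
      have := Real.sqrt_pos.2 (sub_pos.2 h2)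
      linarith
  · -- the cone
    refine ⟨3, ?_⟩
    -- the factor `c z = - conj u1 / (t + i)` tends to `(1 - i) / (2 √2)`
    have hc : Tendsto (fun z : ℂ => -(starRingEnd ℂ) u1 / (rt (rt (-z) - 1) + Complex.I)) (𝓝 0)
        (𝓝 (-(starRingEnd ℂ) u1 / (2 * Complex.I))) := by
      have h1 : rt (rt (-0) - 1) + Complex.I = 2 * Complex.I := by
        rw [neg_zero, rt_zero, zero_sub, rt_neg_one, two_mul]
      have h2 : ContinuousAt (fun z : ℂ =>
          -(starRingEnd ℂ) u1 / (rt (rt (-z) - 1) + Complex.I)) 0 := by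
        refine ContinuousAt.div continuousAt_const ?_ ?_
        · exact ((rt_cont.comp ((rt_cont.comp continuous_neg).sub continuous_const)).add
            continuous_const).continuousAt
        · rw [h1]; simp
      have h3 := h2.tendsto
      rw [h1] at h3
      exact h3
    have hs2 : (0 : ℝ) < √2 := Real.sqrt_pos.2 (by norm_num)
    have hs3 : √2 * √2 = 2 := Real.mul_self_sqrt (by norm_num)
    have hc0 : -(starRingEnd ℂ) u1 / (2 * Complex.I) = ⟨√2 / 4, -(√2 / 4)⟩ := by
      rw [div_eq_iff (by simp)]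
      apply Complex.ext
      · simp [u1]
        field_simp
        nlinarith
      · simp [u1]
        field_simp
        nlinarith
    rw [hc0] at hc
    have hre : Tendsto (fun z : ℂ => (-(starRingEnd ℂ) u1 / (rt (rt (-z) - 1) + Complex.I)).re)
        (𝓝 0) (𝓝 (√2 / 4)) := (Complex.continuous_re.tendsto _).comp hc
    have him' : Tendsto (fun z : ℂ => (-(starRingEnd ℂ) u1 / (rt (rt (-z) - 1) + Complex.I)).im)
        (𝓝 0) (𝓝 (-(√2 / 4))) := (Complex.continuous_im.tendsto _).comp hc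
    have hs4 : (7 : ℝ) / 5 < √2 := by
      rw [Real.lt_sqrt (by norm_num)]; norm_num
    have hs5 : √2 < (3 : ℝ) / 2 := by
      rw [Real.sqrt_lt' (by norm_num)]; norm_num
    have ev1 : ∀ᶠ z in 𝓝 (0 : ℂ),
        3 / 10 < (-(starRingEnd ℂ) u1 / (rt (rt (-z) - 1) + Complex.I)).re :=
      hre.eventually_const_lt (by linarith)
    have ev2 : ∀ᶠ z in 𝓝 (0 : ℂ),
        (-(starRingEnd ℂ) u1 / (rt (rt (-z) - 1) + Complex.I)).re < 2 / 5 :=
      hre.eventually_lt_const (by linarith)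
    have ev3 : ∀ᶠ z in 𝓝 (0 : ℂ),
        -(2 / 5) < (-(starRingEnd ℂ) u1 / (rt (rt (-z) - 1) + Complex.I)).im :=
      him'.eventually_const_lt (by linarith)
    have ev4 : ∀ᶠ z in 𝓝 (0 : ℂ),
        (-(starRingEnd ℂ) u1 / (rt (rt (-z) - 1) + Complex.I)).im < -(3 / 10) :=
      him'.eventually_lt_const (by linarith)
    have key : ∀ᶠ z in 𝓝[{z : ℂ | z.im ≤ 0 ∧ z ≠ 0}] (0 : ℂ), z.im ≤ 0 ∧ z ≠ 0 :=
      self_mem_nhdsWithin
    filter_upwards [key, nhdsWithin_le_nhds ev1, nhdsWithin_le_nhds ev2, nhdsWithin_le_nhds ev3,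
      nhdsWithin_le_nhds ev4] with z hz e1 e2 e3 e4
    have hs : rt (-z) * rt (-z) = -z := rt_mul (-z) (by simpa using hz.1)
    have ht : rt (rt (-z) - 1) * rt (rt (-z) - 1) = rt (-z) - 1 :=
      rt_mul _ (by rw [him]; exact rt_im _)
    have hti : rt (rt (-z) - 1) + Complex.I ≠ 0 := by
      intro h
      have h1 := rt_im (rt (-z) - 1)
      have h2 := congrArg Complex.im h
      simp at h2
      linarith
    have hmain : (W z - ⟨0, -1⟩) * (starRingEnd ℂ) u1 =
        rt (-z) * (-(starRingEnd ℂ) u1 / (rt (rt (-z) - 1) + Complex.I)) := by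
      have h1 : (⟨0, -1⟩ : ℂ) = -Complex.I := by apply Complex.ext <;> simp
      rw [h1, W, mul_div_assoc', eq_div_iff hti]
      have h2 : (-rt (rt (-z) - 1) - -Complex.I) * (rt (rt (-z) - 1) + Complex.I) =
          -rt (-z) := by
        have h3 := Complex.I_mul_I
        linear_combination -ht + h3
      linear_combination (starRingEnd ℂ) u1 * h2
    rw [hmain, Complex.mul_re, Complex.mul_im]
    set a := (rt (-z)).re with ha
    set b := (rt (-z)).im with hb
    set p := (-(starRingEnd ℂ) u1 / (rt (rt (-z) - 1) + Complex.I)).re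
    set q := (-(starRingEnd ℂ) u1 / (rt (rt (-z) - 1) + Complex.I)).im
    have ha0 : 0 ≤ a := rt_re _
    have hb0 : 0 ≤ b := rt_im _
    have hab : 0 < a + b := by
      rcases (add_nonneg ha0 hb0).lt_or_eq with h | h
      · exact h
      · exfalso
        have h1 : a = 0 := by linarith
        have h2 : b = 0 := by linarith
        have h3 : rt (-z) = 0 := Complex.ext (by simpa using h1) (by simpa using h2)
        rw [h3, mul_zero] at hs
        exact hz.2 (by simpa using hs.symm)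
    constructor
    · nlinarith
    · rw [abs_le]
      constructor <;> nlinarith

end Pool.Agent.Confl
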