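import Pool.Agent.Confl.S.Marker
import Pool.Agent.Confl.S.WMap

/-!
# The piece of a drawing
-/

set_option autoImplicit false

open Filter Topology Set

namespace Pool.Agent.Confl

variable {V W : Type}

/-- A one-sided tangent gives a cone condition. -/
theorem cone_of_tangent {w : unitInterval → ℂ} {p : unitInterval} {u : ℂ} (hu : ‖u‖ = 1)
    (b : Bool) (h : Tendsto (fun t => w t / (‖w t‖ : ℂ)) (𝓝[≠] p) (𝓝 ((sgn b : ℂ) * u))) :
    ∀ᶠ t in 𝓝[≠] p, 0 < sgn b * (w t * (starRingEnd ℂ) u).re ∧
      |(w t * (starRingEnd ℂ) u).im| ≤ 1 * (sgn b * (w t * (starRingEnd ℂ) u).re) := by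
  have huu : u * (starRingEnd ℂ) u = 1 := by
    rw [Complex.mul_conj, Complex.normSq_eq_norm_sq, hu]
    norm_num
  have hs : sgn b * sgn b = 1 := by
    cases b <;> norm_num [sgn]
  have h1 : Tendsto (fun t => (sgn b : ℂ) * (w t / (‖w t‖ : ℂ) * (starRingEnd ℂ) u)) (𝓝[≠] p)
      (𝓝 1) := by
    have h2 := (h.mul_const ((starRingEnd ℂ) u)).const_mul (sgn b : ℂ)
    have h3 : (sgn b : ℂ) * ((sgn b : ℂ) * u * (starRingEnd ℂ) u) = 1 := by
      rw [mul_assoc, huu, mul_one, ← Complex.ofReal_mul, hs, Complex.ofReal_one]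
    rw [h3] at h2
    exact h2
  have h4 : Tendsto (fun t => ((sgn b : ℂ) * (w t / (‖w t‖ : ℂ) * (starRingEnd ℂ) u)).re)
      (𝓝[≠] p) (𝓝 1) := by
    have := (Complex.continuous_re.tendsto (1 : ℂ)).comp h1
    rw [Complex.one_re] at this
    exact this
  have h5 : Tendsto (fun t => |((sgn b : ℂ) * (w t / (‖w t‖ : ℂ) * (starRingEnd ℂ) u)).im|)
      (𝓝[≠] p) (𝓝 0) := by
    have := ((Complex.continuous_im.tendsto (1 : ℂ)).comp h1).abs
    rw [Complex.one_im, abs_zero] at this
    exact this
  filter_upwards [h4.eventually (lt_mem_nhds (show (1 / 2 : ℝ) < 1 by norm_num)),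
    h5.eventually (gt_mem_nhds (show (0 : ℝ) < 1 / 2 by norm_num))] with t h6 h7
  have hw : w t ≠ 0 := by
    intro h0
    rw [h0] at h6
    norm_num at h6
  have hn : 0 < ‖w t‖ := norm_pos_iff.2 hw
  have hn' : ((‖w t‖ : ℝ) : ℂ) ≠ 0 := Complex.ofReal_ne_zero.2 hn.ne'
  have e1 : w t * (starRingEnd ℂ) u = ((‖w t‖ * sgn b : ℝ) : ℂ) *
      ((sgn b : ℂ) * (w t / (‖w t‖ : ℂ) * (starRingEnd ℂ) u)) := by
    have hs' : (sgn b : ℂ) * (sgn b : ℂ) = 1 := by
      rw [← Complex.ofReal_mul, hs, Complex.ofReal_one]
    push_cast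
    calc w t * (starRingEnd ℂ) u = ((sgn b : ℂ) * (sgn b : ℂ)) * (w t * (starRingEnd ℂ) u) *
        ((‖w t‖ : ℂ) / (‖w t‖ : ℂ)) := by rw [hs', div_self hn', one_mul, mul_one]
      _ = _ := by ring
  set z : ℂ := (sgn b : ℂ) * (w t / (‖w t‖ : ℂ) * (starRingEnd ℂ) u) with hz
  have e2 : sgn b * (w t * (starRingEnd ℂ) u).re = ‖w t‖ * z.re := by
    rw [e1, Complex.re_ofReal_mul]
    calc sgn b * (‖w t‖ * sgn b * z.re) = (sgn b * sgn b) * (‖w t‖ * z.re) := by ring
      _ = _ := by rw [hs, one_mul]
  have e3 : |(w t * (starRingEnd ℂ) u).im| = ‖w t‖ * |z.im| := by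
    have hs1 : |sgn b| = 1 := by cases b <;> norm_num [sgn]
    rw [e1, Complex.im_ofReal_mul, abs_mul, abs_mul, abs_norm, hs1, mul_one]
  rw [e2, e3]
  constructor
  · positivity
  · nlinarith

/-- Q4. The piece (`curve = f ∘ D.curve - 1` with the `f` of Q3, `D` from Q2). -/
theorem exists_piece [Finite V] (D : Drawing V) (m : V) :
    ∃ P : Piece V m, ∀ G : SimpleGraph V, D.Represents G → P.toSkel.Represents G := by
  obtain ⟨D', hm, hv, hrep⟩ := exists_marker D m
  obtain ⟨f, fc, fi, fneg, fd, fr, f0, M, hM⟩ := exists_W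
  have hpt : ∀ x, (D'.pt x).im ≤ 0 := by
    rintro (v | j)
    · exact (D'.vertex_im v).le
    · exact (D'.junction_im j).le
  have hcur : ∀ a t, (D'.curve a t).im ≤ 0 := by
    intro a t
    by_cases h0 : t = 0
    · subst h0
      have h1 := D'.curve_par a false
      have h2 : par false = 0 := rfl
      rw [h2] at h1
      rw [h1]
      exact hpt _
    · by_cases h1 : t = 1
      · subst h1
        have h1 := D'.curve_par a true
        have h2 : par true = 1 := rfl
        rw [h2] at h1
        rw [h1]
        exact hpt _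
      · exact (D'.curve_int a t h0 h1).1.le
  have hreal : ∀ v, v ≠ m → (f (D'.pt (Sum.inl v))).im = 0 ∧ (f (D'.pt (Sum.inl v))).re < 0 := by
    intro v hvm
    have h1 : D'.pt (Sum.inl v) = (((D'.pt (Sum.inl v)).re : ℝ) : ℂ) :=
      Complex.ext (by simp) (by simp [D'.vertex_im v])
    rw [h1]
    exact fr _ (hv v hvm)
  choose! f' hf' hfd using fd
  let P : Piece V m :=
    { J := D'.J
      A := D'.A
      pt := fun x => f (D'.pt x) - 1
      ep := D'.ep
      dir := D'.dir
      finite_J := D'.finite_J
      finite_A := D'.finite_A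
      pt_inj := by
        intro x y hxy
        exact D'.pt_inj (fi (hpt x) (hpt y) (sub_left_injective hxy))
      vertex_im := by
        intro v hvm
        show (f (D'.pt (Sum.inl v)) - 1).im = 0
        rw [Complex.sub_im, (hreal v hvm).1, Complex.one_im, sub_zero]
      vertex_re := by
        intro v hvm
        show (f (D'.pt (Sum.inl v)) - 1).re < -1
        rw [Complex.sub_re, Complex.one_re]
        linarith [(hreal v hvm).2]
      marker := by
        show f (D'.pt (Sum.inl m)) - 1 = ⟨-1, -1⟩
        rw [hm, f0]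
        apply Complex.ext <;> norm_num
      junction := by
        intro j
        have h1 := fneg _ (D'.junction_im j)
        refine ⟨?_, ?_⟩
        · show (f (D'.pt (Sum.inr j)) - 1).im < 0
          rw [Complex.sub_im, Complex.one_im, sub_zero]
          exact h1.1
        · show (f (D'.pt (Sum.inr j)) - 1).re < -1
          rw [Complex.sub_re, Complex.one_re]
          linarith [h1.2]
      curve := fun a t => f (D'.curve a t) - 1
      curve_cont := by
        intro a
        exact (fc.comp_continuous (D'.curve_cont a) (hcur a)).sub continuous_const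
      curve_inj := by
        intro a s t hst
        exact D'.curve_inj a (fi (hcur a s) (hcur a t) (sub_left_injective hst))
      curve_par := by
        intro a b
        show f (D'.curve a (par b)) - 1 = f (D'.pt (D'.ep a b)) - 1
        rw [D'.curve_par]
      curve_int := by
        intro a t h0 h1
        obtain ⟨h2, h3⟩ := D'.curve_int a t h0 h1
        have h4 := fneg _ h2
        refine ⟨?_, ?_, ?_⟩
        · show (f (D'.curve a t) - 1).im < 0
          rw [Complex.sub_im, Complex.one_im, sub_zero]
          exact h4.1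
        · show (f (D'.curve a t) - 1).re < -1
          rw [Complex.sub_re, Complex.one_re]
          linarith [h4.2]
        · intro x hx
          exact h3 x (fi (hcur a t) (hpt x) (sub_left_injective hx))
      curve_disj := by
        intro a b s t hab hst
        exact D'.curve_disj a b s t hab (fi (hcur a s) (hcur b t) (sub_left_injective hst))
      u := fun j => f' (D'.pt (Sum.inr j)) / (‖f' (D'.pt (Sum.inr j))‖ : ℂ) * D'.u j
      norm_u := by
        intro j
        have h1 : ‖f' (D'.pt (Sum.inr j))‖ ≠ 0 := norm_ne_zero_iff.2 (hf' _ (D'.junction_im j))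
        rw [norm_mul, norm_div, Complex.norm_real, norm_norm, D'.norm_u, div_self h1, mul_one]
      cone := by
        intro a b j hab
        refine ⟨1, ?_⟩
        have hz := D'.junction_im j
        have h1 : ‖f' (D'.pt (Sum.inr j))‖ ≠ 0 := norm_ne_zero_iff.2 (hf' _ hz)
        have hp : D'.curve a (par b) = D'.pt (Sum.inr j) := by
          rw [D'.curve_par, hab]
        have hne : ∀ᶠ t in 𝓝[≠] par b, D'.curve a t ≠ D'.pt (Sum.inr j) := by
          filter_upwards [self_mem_nhdsWithin] with t ht h2
          rw [← hp] at h2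
          exact ht (D'.curve_inj a h2)
        have h2 := tangent_map (D'.curve_cont a) hp hne (D'.tangent a b j hab) (hfd _ hz)
          (hf' _ hz)
        have h3 := cone_of_tangent
          (w := fun t => f (D'.curve a t) - 1 - (f (D'.pt (Sum.inr j)) - 1)) (p := par b)
          (u := f' (D'.pt (Sum.inr j)) / (‖f' (D'.pt (Sum.inr j))‖ : ℂ) * D'.u j)
          (by rw [norm_mul, norm_div, Complex.norm_real, norm_norm, D'.norm_u, div_self h1,
                mul_one])
          (D'.dir a b) (by
            simp only [sub_sub_sub_cancel_right]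
            rw [mul_left_comm] at h2
            exact h2)
        exact h3
      cone_m := by
        intro a b hab
        refine ⟨M, ?_⟩
        have hp : D'.curve a (par b) = 0 := by
          rw [D'.curve_par, hab, hm]
        have h1 : Tendsto (D'.curve a) (𝓝[≠] par b) (𝓝[{z : ℂ | z.im ≤ 0 ∧ z ≠ 0}] (0 : ℂ)) := by
          rw [tendsto_nhdsWithin_iff]
          refine ⟨?_, ?_⟩
          · have h2 := ((D'.curve_cont a).tendsto (par b)).mono_left
              (nhdsWithin_le_nhds (s := {par b}ᶜ))
            rwa [hp] at h2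
          · filter_upwards [self_mem_nhdsWithin] with t ht
            refine ⟨hcur a t, ?_⟩
            intro h2
            rw [← hp] at h2
            exact ht (D'.curve_inj a h2)
        have h2 := h1.eventually hM
        filter_upwards [h2] with t ht
        have e : f (D'.curve a t) - 1 - ⟨-1, -1⟩ = f (D'.curve a t) - ⟨0, -1⟩ := by
          apply Complex.ext
          · simp
          · simp
        rw [e]
        exact ht }
  refine ⟨P, fun G hG => ?_⟩
  intro u v huv
  have h1 := hrep G hG u v huv
  rw [h1]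
  constructor
  · rintro ⟨p, h2, h3, h4, h5⟩
    exact ⟨p, h2, h3, h4, h5⟩
  · rintro ⟨p, h2, h3, h4, h5⟩
    exact ⟨p, h2, h3, h4, h5⟩

end Pool.Agent.Confl
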