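import Pool.Agent.Confl.S.Comp

/-!
# Splits and outerconfluent graphs
-/

set_option autoImplicit false

open Filter Topology Set Turing Computability

namespace Pool.Agent.Confl

variable {V W : Type}

/-- Outerconfluent graphs are closed under induced subgraphs (and isomorphisms). -/
theorem Outerconfluent.comap {G : SimpleGraph W} (h : Outerconfluent G) (f : V → W)
    (hf : Function.Injective f) : Outerconfluent (G.comap f) := by
  obtain ⟨D, hD⟩ := h
  obtain ⟨D', -, hr⟩ := drawing_comap f hf D
  exact ⟨D', hr _ hD⟩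

theorem Outerconfluent.induce {G : SimpleGraph V} (h : Outerconfluent G) (S : Set V) :
    Outerconfluent (G.induce S) := h.comap _ Subtype.val_injective

/-- The set `A` is one side of a split of the subgraph induced on `S`: both `A` and `S \ A` have at
least two elements, and the edges between them form a complete bipartite graph. -/
def IsSplit (G : SimpleGraph V) (S A : Set V) : Prop :=
  A ⊆ S ∧ A.Nontrivial ∧ (S \ A).Nontrivial ∧
    ∀ a ∈ A, ∀ a' ∈ A, ∀ b ∈ S \ A, ∀ b' ∈ S \ A, G.Adj a b → G.Adj a' b' → G.Adj a b'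

/-- The vertices `w`, `z` represent the two sides of a split. -/
def Marks (G : SimpleGraph V) (S A : Set V) (w z : V) : Prop :=
  w ∈ A ∧ z ∈ S \ A ∧ ∀ a ∈ A, ∀ b ∈ S \ A, (G.Adj a b ↔ G.Adj a z ∧ G.Adj w b)

theorem exists_marks {G : SimpleGraph V} {S A : Set V} (h : IsSplit G S A) :
    ∃ w z, Marks G S A w z := by
  obtain ⟨-, h1, h2, h3⟩ := h
  by_cases he : ∃ a ∈ A, ∃ b ∈ S \ A, G.Adj a b
  · obtain ⟨w, hw, z, hz, hwz⟩ := he
    refine ⟨w, z, hw, hz, fun a ha b hb => ⟨fun hab => ⟨?_, ?_⟩, fun hab => ?_⟩⟩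
    · exact h3 a ha w hw b hb z hz hab hwz
    · exact h3 w hw a ha z hz b hb hwz hab
    · exact h3 a ha w hw z hz b hb hab.1 hab.2
  · push Not at he
    obtain ⟨w, hw⟩ := h1.nonempty
    obtain ⟨z, hz⟩ := h2.nonempty
    exact ⟨w, z, hw, hz, fun a ha b hb => ⟨fun hab => absurd hab (he a ha b hb),
      fun hab => absurd hab.1 (he a ha z hz)⟩⟩

/-- Gluing along a split. -/
theorem outerconfluent_of_marks [Finite V] {G : SimpleGraph V} {S A : Set V} {w z : V}
    (hm : Marks G S A w z) (h1 : Outerconfluent (G.induce (insert z A)))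
    (h2 : Outerconfluent (G.induce (insert w (S \ A)))) : Outerconfluent (G.induce S) := by
  classical
  obtain ⟨hw, hz, hab⟩ := hm
  have hc := outerconfluent_comp (G := G.induce (insert z A)) (H := G.induce (insert w (S \ A)))
    ⟨z, mem_insert _ _⟩ ⟨w, mem_insert _ _⟩ h1 h2
  let f : S → {v : (insert z A : Set V) // v ≠ ⟨z, mem_insert _ _⟩} ⊕
      {v : (insert w (S \ A) : Set V) // v ≠ ⟨w, mem_insert _ _⟩} := fun s =>
    if hs : s.1 ∈ A then Sum.inl ⟨⟨s.1, mem_insert_of_mem _ hs⟩, fun h => by
      have h' : s.1 = z := congrArg Subtype.val h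
      exact hz.2 (h' ▸ hs)⟩
    else Sum.inr ⟨⟨s.1, mem_insert_of_mem _ ⟨s.2, hs⟩⟩, fun h => by
      have h' : s.1 = w := congrArg Subtype.val h
      exact hs (h' ▸ hw)⟩
  have hf : Function.Injective f := by
    intro s t hst
    by_cases hs : s.1 ∈ A <;> by_cases ht : t.1 ∈ A
    · simp only [f, dif_pos hs, dif_pos ht, Sum.inl.injEq, Subtype.mk.injEq] at hst
      exact Subtype.ext hst
    · simp only [f, dif_pos hs, dif_neg ht, reduceCtorEq] at hst
    · simp only [f, dif_neg hs, dif_pos ht, reduceCtorEq] at hst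
    · simp only [f, dif_neg hs, dif_neg ht, Sum.inr.injEq, Subtype.mk.injEq] at hst
      exact Subtype.ext hst
  have h3 := hc.comap f hf
  have h4 : (comp (G.induce (insert z A)) ⟨z, mem_insert _ _⟩ (G.induce (insert w (S \ A)))
      ⟨w, mem_insert _ _⟩).comap f = G.induce S := by
    ext s t
    rw [SimpleGraph.comap_adj]
    show _ ↔ G.Adj s.1 t.1
    by_cases hs : s.1 ∈ A <;> by_cases ht : t.1 ∈ A
    · simp only [f, dif_pos hs, dif_pos ht]
      rfl
    · simp only [f, dif_pos hs, dif_neg ht]
      rw [hab s.1 hs t.1 ⟨t.2, ht⟩, G.adj_comm w t.1]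
      rfl
    · simp only [f, dif_neg hs, dif_pos ht]
      rw [G.adj_comm s.1 t.1, hab t.1 ht s.1 ⟨s.2, hs⟩, G.adj_comm w s.1]
      rfl
    · simp only [f, dif_neg hs, dif_neg ht]
      rfl
  rw [h4] at h3
  exact h3

/-- **Splits.** If the cut `(A, S \ A)` is a split of the subgraph induced on `S` with
representatives `w`, `z`, then this subgraph is outerconfluent iff both parts are. -/
theorem outerconfluent_split [Finite V] {G : SimpleGraph V} {S A : Set V} {w z : V}
    (hAS : A ⊆ S) (hm : Marks G S A w z) :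
    Outerconfluent (G.induce S) ↔ Outerconfluent (G.induce (insert z A)) ∧
      Outerconfluent (G.induce (insert w (S \ A))) := by
  constructor
  · intro h
    have key : ∀ T : Set V, T ⊆ S → Outerconfluent (G.induce T) := by
      intro T hT
      exact h.comap (fun v : T => (⟨v.1, hT v.2⟩ : S)) (fun a b hab => by
        have := congrArg Subtype.val hab
        exact Subtype.ext this)
    exact ⟨key _ (insert_subset hm.2.1.1 hAS), key _ (insert_subset (hAS hm.1) sdiff_subset)⟩
  · rintro ⟨h1, h2⟩
    exact outerconfluent_of_marks hm h1 h2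

/-- The same for a cut of the whole graph. -/
theorem outerconfluent_cut [Finite V] (G : SimpleGraph V) (A : Set V) (w z : V) (hw : w ∈ A)
    (hz : z ∉ A) (hm : ∀ a ∈ A, ∀ b ∉ A, (G.Adj a b ↔ G.Adj a z ∧ G.Adj w b)) :
    Outerconfluent G ↔ Outerconfluent (G.induce (insert z A)) ∧
      Outerconfluent (G.induce (insert w Aᶜ)) := by
  have h1 := outerconfluent_split (G := G) (S := Set.univ) (A := A) (w := w) (z := z)
    (subset_univ A) ⟨hw, ⟨mem_univ z, hz⟩, fun a ha b hb => hm a ha b hb.2⟩
  have h2 : Outerconfluent (G.induce (Set.univ : Set V)) ↔ Outerconfluent G := by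
    constructor
    · intro h
      exact h.comap (fun v : V => (⟨v, mem_univ v⟩ : (Set.univ : Set V)))
        (fun a b hab => congrArg Subtype.val hab)
    · intro h
      exact h.induce _
  rw [h2, ← compl_eq_univ_sdiff] at h1
  exact h1

/-- **Prime graphs decide.** A finite graph is outerconfluent iff all its induced subgraphs without
a split are. -/
theorem outerconfluent_iff_primes [Finite V] (G : SimpleGraph V) :
    Outerconfluent G ↔ ∀ S : Set V, (¬ ∃ A, IsSplit G S A) → Outerconfluent (G.induce S) := by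
  refine ⟨fun h S _ => h.induce S, fun hG => ?_⟩
  have key : ∀ (k : ℕ) (S : Set V), S.ncard ≤ k → Outerconfluent (G.induce S) := by
    intro k
    induction k with
    | zero =>
      intro S hS
      refine hG S ?_
      rintro ⟨A, hAS, hA, -⟩
      have h1 : 1 < A.ncard := Set.one_lt_ncard_iff_nontrivial.2 hA
      have h2 := Set.ncard_le_ncard hAS (Set.toFinite S)
      omega
    | succ k ih =>
      intro S hS
      by_cases hsp : ∃ A, IsSplit G S A
      · obtain ⟨A, hA⟩ := hsp
        obtain ⟨w, z, hm⟩ := exists_marks hA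
        obtain ⟨hAS, hA1, hA2, -⟩ := hA
        have hfin := Set.toFinite S
        have e1 : (S \ A).ncard + A.ncard = S.ncard :=
          Set.ncard_sdiff_add_ncard_of_subset hAS hfin
        have e2 : 1 < A.ncard := Set.one_lt_ncard_iff_nontrivial.2 hA1
        have e3 : 1 < (S \ A).ncard := Set.one_lt_ncard_iff_nontrivial.2 hA2
        refine outerconfluent_of_marks hm (ih _ ?_) (ih _ ?_)
        · have := Set.ncard_insert_le z A
          omega
        · have := Set.ncard_insert_le w (S \ A)
          omega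
      · exact hG S hsp
  have h := key (Set.univ : Set V).ncard Set.univ le_rfl
  exact h.comap (fun v : V => (⟨v, mem_univ v⟩ : (Set.univ : Set V))) (fun a b hab =>
    congrArg Subtype.val hab)

end Pool.Agent.Confl
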